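import Pool.Agent.H23.FO.EC

namespace H23FO
open Finset

set_option linter.unusedSectionVars false

variable {ι : Type*} [DecidableEq ι]

namespace FRow

/-- number of `u`-subsets of `V` containing `i` and not `k` -/
lemma card_filter_mem_notMem {V : Finset ι} {i k : ι} (hi : i ∈ V) (hk : k ∈ V) (hik : i ≠ k)
    {u : ℕ} (hu : 1 ≤ u) :
    ((V.powersetCard u).filter fun I => i ∈ I ∧ k ∉ I).card
      = (V.card - 2).choose (u - 1) := by
  have hki : k ∈ V.erase i := Finset.mem_erase.2 ⟨fun h => hik h.symm, hk⟩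
  have hcard : ((V.erase i).erase k).card = V.card - 2 := by
    rw [Finset.card_erase_of_mem hki, Finset.card_erase_of_mem hi]; omega
  rw [← hcard, ← Finset.card_powersetCard]
  refine Finset.card_nbij' (fun I => I.erase i) (fun J => insert i J) ?_ ?_ ?_ ?_
  · intro I hI
    simp only [Finset.coe_filter, Finset.mem_powersetCard, Set.mem_ofPred_eq] at hI
    obtain ⟨⟨hIV, hIc⟩, hiI, hkI⟩ := hI
    simp only [Finset.mem_coe, Finset.mem_powersetCard]
    refine ⟨?_, ?_⟩
    · intro a ha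
      rw [Finset.mem_erase] at ha
      rw [Finset.mem_erase, Finset.mem_erase]
      refine ⟨?_, ha.1, hIV ha.2⟩
      rintro rfl
      exact hkI ha.2
    · rw [Finset.card_erase_of_mem hiI, hIc]
  · intro J hJ
    simp only [Finset.mem_coe, Finset.mem_powersetCard] at hJ
    obtain ⟨hJV, hJc⟩ := hJ
    have hiJ : i ∉ J := fun h => by
      have := hJV h
      rw [Finset.mem_erase, Finset.mem_erase] at this
      exact this.2.1 rfl
    have hkJ : k ∉ J := fun h => by
      have := hJV h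
      rw [Finset.mem_erase] at this
      exact this.1 rfl
    simp only [Finset.coe_filter, Finset.mem_powersetCard, Set.mem_ofPred_eq]
    refine ⟨⟨?_, ?_⟩, Finset.mem_insert_self _ _, ?_⟩
    · intro a ha
      rcases Finset.mem_insert.1 ha with rfl | ha
      · exact hi
      · have := hJV ha
        rw [Finset.mem_erase, Finset.mem_erase] at this
        exact this.2.2
    · rw [Finset.card_insert_of_notMem hiJ, hJc]; omega
    · rw [Finset.mem_insert]
      rintro (h | h)
      · exact hik h.symm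
      · exact hkJ h
  · intro I hI
    simp only [Finset.coe_filter, Finset.mem_powersetCard, Set.mem_ofPred_eq] at hI
    exact Finset.insert_erase hI.2.1
  · intro J hJ
    simp only [Finset.mem_coe, Finset.mem_powersetCard] at hJ
    have hiJ : i ∉ J := fun h => by
      have := hJ.1 h
      rw [Finset.mem_erase, Finset.mem_erase] at this
      exact this.2.1 rfl
    exact Finset.erase_insert hiJ

/-- number of `u`-subsets of `V` containing `i` -/
lemma card_filter_mem {V : Finset ι} {i : ι} (hi : i ∈ V) {u : ℕ} (hu : 1 ≤ u) :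
    ((V.powersetCard u).filter fun I => i ∈ I).card = (V.card - 1).choose (u - 1) := by
  have hcard : (V.erase i).card = V.card - 1 := Finset.card_erase_of_mem hi
  rw [← hcard, ← Finset.card_powersetCard]
  refine Finset.card_nbij' (fun I => I.erase i) (fun J => insert i J) ?_ ?_ ?_ ?_
  · intro I hI
    simp only [Finset.coe_filter, Finset.mem_powersetCard, Set.mem_ofPred_eq] at hI
    obtain ⟨⟨hIV, hIc⟩, hiI⟩ := hI
    simp only [Finset.mem_coe, Finset.mem_powersetCard]
    exact ⟨Finset.erase_subset_erase _ hIV, by rw [Finset.card_erase_of_mem hiI, hIc]⟩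
  · intro J hJ
    simp only [Finset.mem_coe, Finset.mem_powersetCard] at hJ
    obtain ⟨hJV, hJc⟩ := hJ
    have hiJ : i ∉ J := fun h => Finset.notMem_erase i V (hJV h)
    simp only [Finset.coe_filter, Finset.mem_powersetCard, Set.mem_ofPred_eq]
    refine ⟨⟨?_, ?_⟩, Finset.mem_insert_self _ _⟩
    · intro a ha
      rcases Finset.mem_insert.1 ha with rfl | ha
      · exact hi
      · exact Finset.mem_of_mem_erase (hJV ha)
    · rw [Finset.card_insert_of_notMem hiJ, hJc]; omega
  · intro I hI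
    simp only [Finset.coe_filter, Finset.mem_powersetCard, Set.mem_ofPred_eq] at hI
    exact Finset.insert_erase hI.2
  · intro J hJ
    simp only [Finset.mem_coe, Finset.mem_powersetCard] at hJ
    exact Finset.erase_insert (fun h => Finset.notMem_erase i V (hJ.1 h))

/-- **Averaging** over all `I` of size `u`. -/
theorem avg (A : FRow ι) {R u : ℕ} {r : ℤ} {V : Finset ι} {x : ι → ℤ} (hR : 1 ≤ R) (hu : 1 ≤ u)
    (h : A.Valid R u r V x) :
    ((u : ℝ) + R - 1) * (R * (nn V x r : ℝ) - u * r) ≤ 2 * u * R * A.MM V := by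
  obtain ⟨hcard, hval⟩ := h
  -- the inequality for one `I`
  have h1 : ∀ I ∈ V.powersetCard u,
      (nn V x r : ℝ) - ∑ i ∈ I, (x i : ℝ) ≤ ∑ i ∈ I, ∑ k ∈ V \ I, A.M i k := by
    intro I hI
    rw [Finset.mem_powersetCard] at hI
    choose g hg _ hle using fun i => A.exists_min i (V \ I)
    have h2 := hval I hI.1 hI.2 g fun i _ => hg i
    have h3 : ((((∑ k ∈ V, x k) - r - ∑ i ∈ I, x i : ℤ)) : ℝ)
        ≤ ((∑ i ∈ I, (rs (g i) (V \ I) : ℤ) : ℤ) : ℝ) := by exact_mod_cast h2
    have h4 : ((∑ i ∈ I, (rs (g i) (V \ I) : ℤ) : ℤ) : ℝ) ≤ ∑ i ∈ I, A.Mr i (V \ I) := by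
      push_cast
      exact Finset.sum_le_sum fun i _ => hle i
    have h5 : (((∑ k ∈ V, x k) - r - ∑ i ∈ I, x i : ℤ) : ℝ)
        = (nn V x r : ℝ) - ∑ i ∈ I, (x i : ℝ) := by
      unfold nn; push_cast; ring
    rw [h5] at h3
    exact h3.trans h4
  have hsum := Finset.sum_le_sum h1
  -- left side
  have hL : ∑ I ∈ V.powersetCard u, ((nn V x r : ℝ) - ∑ i ∈ I, (x i : ℝ))
      = ((V.card.choose u : ℕ) : ℝ) * nn V x r
        - (((V.card - 1).choose (u - 1) : ℕ) : ℝ) * ∑ i ∈ V, (x i : ℝ) := by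
    rw [Finset.sum_sub_distrib, Finset.sum_const, Finset.card_powersetCard, nsmul_eq_mul]
    congr 1
    have e1 : ∀ I ∈ V.powersetCard u, ∑ i ∈ I, (x i : ℝ)
        = ∑ i ∈ V, if i ∈ I then (x i : ℝ) else 0 := by
      intro I hI
      rw [Finset.mem_powersetCard] at hI
      rw [← Finset.sum_filter]
      refine Finset.sum_congr ?_ fun _ _ => rfl
      ext a
      rw [Finset.mem_filter]
      exact ⟨fun ha => ⟨hI.1 ha, ha⟩, fun ha => ha.2⟩
    rw [Finset.sum_congr rfl e1, Finset.sum_comm, Finset.mul_sum]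
    refine Finset.sum_congr rfl fun i hi => ?_
    rw [← Finset.sum_filter, Finset.sum_const, card_filter_mem hi hu, nsmul_eq_mul]
  -- right side
  have hRt : ∑ I ∈ V.powersetCard u, ∑ i ∈ I, ∑ k ∈ V \ I, A.M i k
      = (((V.card - 2).choose (u - 1) : ℕ) : ℝ) * (2 * A.MM V) := by
    have e1 : ∀ I ∈ V.powersetCard u, ∑ i ∈ I, ∑ k ∈ V \ I, A.M i k
        = ∑ i ∈ V, ∑ k ∈ V, if i ∈ I ∧ k ∉ I then A.M i k else 0 := by
      intro I hI
      rw [Finset.mem_powersetCard] at hI
      have e2 : ∀ i ∈ V, (∑ k ∈ V, if i ∈ I ∧ k ∉ I then A.M i k else 0)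
          = if i ∈ I then ∑ k ∈ V \ I, A.M i k else 0 := by
        intro i _
        by_cases hiI : i ∈ I
        · simp only [hiI, true_and, if_true]
          rw [← Finset.sum_filter]
          refine Finset.sum_congr ?_ fun _ _ => rfl
          ext a
          rw [Finset.mem_filter, Finset.mem_sdiff]
        · simp only [hiI, false_and, if_false, Finset.sum_const_zero]
      rw [Finset.sum_congr rfl e2, ← Finset.sum_filter]
      refine Finset.sum_congr ?_ fun _ _ => rfl
      ext a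
      rw [Finset.mem_filter]
      exact ⟨fun ha => ⟨hI.1 ha, ha⟩, fun ha => ha.2⟩
    rw [Finset.sum_congr rfl e1, Finset.sum_comm]
    have e3 : 2 * A.MM V = ∑ i ∈ V, ∑ k ∈ V, A.M i k := by
      unfold MM; ring
    rw [e3, Finset.mul_sum]
    refine Finset.sum_congr rfl fun i hi => ?_
    rw [Finset.sum_comm, Finset.mul_sum]
    refine Finset.sum_congr rfl fun k hk => ?_
    by_cases hik : i = k
    · subst hik
      rw [A.M_diag]
      simp
    · rw [← Finset.sum_filter, Finset.sum_const, card_filter_mem_notMem hi hk hik hu,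
        nsmul_eq_mul]
  rw [hL, hRt, hcard] at hsum
  -- binomial identities
  obtain ⟨v, rfl⟩ : ∃ v, u = v + 1 := ⟨u - 1, by omega⟩
  obtain ⟨S, rfl⟩ : ∃ S, R = S + 1 := ⟨R - 1, by omega⟩
  have ew : v + 1 + (S + 1) = v + S + 2 := by ring
  rw [ew] at hsum
  have ew1 : v + S + 2 - 1 = v + S + 1 := by omega
  have ew2 : v + S + 2 - 2 = v + S := by omega
  have ev : v + 1 - 1 = v := by omega
  rw [ew1, ew2, ev] at hsum
  have b1 : (v + S + 2) * (v + S + 1).choose v = (v + S + 2).choose (v + 1) * (v + 1) :=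
    Nat.add_one_mul_choose_eq (v + S + 1) v
  have b2 : (v + S + 1) * (v + S).choose v = (v + S + 1).choose (v + 1) * (v + 1) :=
    Nat.add_one_mul_choose_eq (v + S) v
  have b3 : (v + S + 1).choose (v + 1) * (v + S + 2)
      = (v + S + 2).choose (v + 1) * (v + S + 2 - (v + 1)) :=
    Nat.choose_mul_succ_eq (v + S + 1) (v + 1)
  have b3' : v + S + 2 - (v + 1) = S + 1 := by omega
  rw [b3'] at b3
  have hc : (0 : ℝ) < (((v + S + 2).choose (v + 1) : ℕ) : ℝ) := by
    exact_mod_cast Nat.choose_pos (by omega)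
  set c : ℝ := (((v + S + 2).choose (v + 1) : ℕ) : ℝ) with hcdef
  set c1 : ℝ := (((v + S + 1).choose v : ℕ) : ℝ) with hc1
  set c2 : ℝ := (((v + S).choose v : ℕ) : ℝ) with hc2
  set c3 : ℝ := (((v + S + 1).choose (v + 1) : ℕ) : ℝ) with hc3
  have B1 : ((v : ℝ) + S + 2) * c1 = c * (v + 1) := by
    rw [hc1, hcdef]; exact_mod_cast b1
  have B2 : ((v : ℝ) + S + 1) * c2 = c3 * (v + 1) := by
    rw [hc2, hc3]; exact_mod_cast b2
  have B3 : c3 * ((v : ℝ) + S + 2) = c * (S + 1) := by
    rw [hc3, hcdef]; exact_mod_cast b3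
  have hX : ∑ i ∈ V, (x i : ℝ) = nn V x r + r := by
    unfold nn; push_cast; ring
  rw [hX] at hsum
  set n : ℝ := (nn V x r : ℝ) with hn
  set M : ℝ := A.MM V
  have hv0 : (0 : ℝ) ≤ v := Nat.cast_nonneg v
  have hS0 : (0 : ℝ) ≤ S := Nat.cast_nonneg S
  have hmul := mul_le_mul_of_nonneg_left hsum
    (show (0 : ℝ) ≤ ((v : ℝ) + S + 2) * (v + S + 1) by positivity)
  have e1 : ((v : ℝ) + S + 2) * (v + S + 1) * (c * n - c1 * (n + r))
      = c * (((v : ℝ) + S + 1) * ((S + 1) * n - (v + 1) * r)) := by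
    have : ((v : ℝ) + S + 2) * (v + S + 1) * (c * n - c1 * (n + r))
      = ((v : ℝ) + S + 1) * ((v + S + 2) * c * n - ((v + S + 2) * c1) * (n + r)) := by ring
    rw [this, B1]; ring
  have e2 : ((v : ℝ) + S + 2) * (v + S + 1) * (c2 * (2 * M))
      = c * (2 * (v + 1) * (S + 1) * M) := by
    have : ((v : ℝ) + S + 2) * (v + S + 1) * (c2 * (2 * M))
      = (v + S + 2) * (((v : ℝ) + S + 1) * c2) * (2 * M) := by ring
    rw [this, B2]
    have : (v + S + 2) * (c3 * ((v : ℝ) + 1)) * (2 * M)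
      = (c3 * ((v : ℝ) + S + 2)) * ((v + 1) * (2 * M)) := by ring
    rw [this, B3]; ring
  rw [e1, e2] at hmul
  have hfin := le_of_mul_le_mul_left hmul hc
  push_cast
  linarith

/-- Step 1: `R Q θ ≤ u r`. -/
theorem Ctx.th_le {A : FRow ι} {Q u : ℕ} {r : ℤ} {V : Finset ι} {x : ι → ℤ}
    (h : Ctx A Q u r V x) : ((Q : ℝ) + 1) * Q * th Q u V x r ≤ u * r := by
  rcases Nat.eq_zero_or_pos u with hu0 | hu1
  · exfalso
    have hv := h.val.2 ∅ (Finset.empty_subset V) (by rw [Finset.card_empty, hu0])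
      (fun _ _ => 0) (by intro i hi; simp at hi)
    have hn := h.hn
    unfold nn at hn
    simp at hv
    omega
  · have hQ : (2 : ℝ) ≤ Q := by exact_mod_cast h.hQ
    have hu : (1 : ℝ) ≤ u := by exact_mod_cast hu1
    have h1 := avg A (R := Q + 1) (by omega) hu1 h.val
    have h2 := h.MM_le
    have h3 := h.n_eq
    push_cast at h1
    rw [h3] at h1
    have hQ0 : (0 : ℝ) ≤ Q := by linarith
    have hu0 : (0 : ℝ) ≤ u := by linarith
    set θ := th Q u V x r with hθ
    have h4 : 2 * (u : ℝ) * (Q + 1) * A.MM V ≤ 2 * u * (Q + 1) * ((u + Q) * θ) :=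
      mul_le_mul_of_nonneg_left h2 (by positivity)
    have h5 : ((u : ℝ) + Q) * ((Q + 1) * ((2 * u + Q) * θ) - u * r)
        ≤ (u + Q) * (2 * u * (Q + 1) * θ) := by
      have e1 : (u : ℝ) + (Q + 1) - 1 = u + Q := by ring
      rw [e1] at h1
      linarith
    have hpos : (0 : ℝ) < u + Q := by positivity
    have h6 := le_of_mul_le_mul_left h5 hpos
    linarith

end FRow

end H23FO
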