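import Pool.Agent.H23.FO.Three

namespace H23FO
open Finset

set_option linter.unusedSectionVars false

variable {ι : Type*} [DecidableEq ι]

namespace FRow

variable {A : FRow ι} {Q u : ℕ} {r : ℤ} {V : Finset ι} {x : ι → ℤ}

/-- `(**)`: `Dbar(A) + M(A,B) ≥ 2 |A1|`. -/
lemma Ctx3.star_star (h : Ctx3 A Q u r V x) :
    2 * ((A1 A V x).card : ℝ) ≤ ∑ k ∈ AA V x, A.Mr k V + ∑ k ∈ BB V x, A.Mr k (AA V x) := by
  classical
  have hsub : A1 A V x ⊆ AA V x := by
    rw [← SS_union_A1 (A := A)]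
    exact Finset.subset_union_right
  have hex : ∑ k ∈ BB V x, A.Mr k (AA V x) = ∑ i ∈ AA V x, A.Mr i (BB V x) := by
    unfold Mr
    rw [Finset.sum_comm]
    exact Finset.sum_congr rfl fun i _ => Finset.sum_congr rfl fun k _ => A.M_symm _ _
  rw [hex, ← Finset.sum_add_distrib]
  have h1 : ∑ i ∈ A1 A V x, (A.Mr i V + A.Mr i (BB V x))
      ≤ ∑ i ∈ AA V x, (A.Mr i V + A.Mr i (BB V x)) :=
    Finset.sum_le_sum_of_subset_of_nonneg hsub fun i _ _ =>
      add_nonneg (A.Mr_nonneg _ _) (A.Mr_nonneg _ _)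
  have h2 : ∑ _i ∈ A1 A V x, (2 : ℝ) ≤ ∑ i ∈ A1 A V x, (A.Mr i V + A.Mr i (BB V x)) := by
    refine Finset.sum_le_sum fun i hi => ?_
    have e1 := one_add_qq_le hi
    have e2 : 1 - qq A V i ≤ A.Mr i (BB V x) := by
      rw [← h.sum_Ms hi]
      exact Finset.sum_le_sum fun k _ => Ms_le_M i k
    linarith
  rw [Finset.sum_const, nsmul_eq_mul] at h2
  linarith

/-- the choice of the rows in `C = A`: sinks have the empty row, the others a single row at a hub -/
lemma Ctx3.restrict_AA (h : Ctx3 A Q u r V x) {b : ℕ} (hb : (AA V x).card + b = u) :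
    ∃ x' : ι → ℤ, A.Valid (Q + 1) b r (BB V x) x' ∧
      nn (BB V x) x' r = nn V x r - (AA V x).card - (A1 A V x).card := by
  classical
  have hAV : AA V x ⊆ V := Finset.filter_subset _ _
  have hBV : BB V x ⊆ V := Finset.filter_subset _ _
  have hsub : A1 A V x ⊆ AA V x := by
    rw [← SS_union_A1 (A := A)]
    exact Finset.subset_union_right
  have hVA : V \ AA V x = BB V x := by
    have h1 := h.AA_union_BB
    have h2 : Disjoint (AA V x) (BB V x) := disjoint_AA_BB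
    have h3 : (AA V x ∪ BB V x) \ AA V x = BB V x := by
      rw [Finset.union_sdiff_left]
      exact Finset.sdiff_eq_self_of_disjoint h2.symm
    rwa [h1] at h3
  have hch : ∀ i, ∃ g : ι → ℕ, i ∈ AA V x →
      (g ∈ A.S i ∧ (rs g (BB V x) : ℤ) = if i ∈ A1 A V x then 1 else 0) := by
    intro i
    by_cases hi : i ∈ AA V x
    · by_cases hi1 : i ∈ A1 A V x
      · obtain ⟨g, hg, hg1, k, hk, hgk⟩ := h.exists_single hi1
        refine ⟨g, fun _ => ⟨hg, ?_⟩⟩
        rw [if_pos hi1]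
        have e1 : rs g (BB V x) ≤ rs g V := rs_mono g hBV
        have e2 : g k ≤ rs g (BB V x) := by
          unfold rs
          exact Finset.single_le_sum (f := g) (fun _ _ => Nat.zero_le _) hk
        have e3 : rs g (BB V x) = 1 := by omega
        rw [e3]; rfl
      · have hS : i ∈ SS A V x := by
          have : i ∈ SS A V x ∪ A1 A V x := by rw [SS_union_A1]; exact hi
          exact (Finset.mem_union.1 this).resolve_right hi1
        have hS' := hS
        unfold SS at hS'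
        rw [Finset.mem_filter] at hS'
        obtain ⟨-, g, hg, hg0⟩ := hS'
        refine ⟨g, fun _ => ⟨hg, ?_⟩⟩
        rw [if_neg hi1]
        have e1 : rs g (BB V x) ≤ rs g V := rs_mono g hBV
        have e3 : rs g (BB V x) = 0 := by omega
        rw [e3]; rfl
    · exact ⟨fun _ => 0, fun hi' => absurd hi' hi⟩
  choose g hg using hch
  have hgS : ∀ i ∈ AA V x, g i ∈ A.S i := fun i hi => (hg i hi).1
  have hres := h.val.restrict hAV (by omega) g hgS
  have hn' := restrict_n hAV x g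
  have hbe : u - (AA V x).card = b := by omega
  rw [hbe, hVA] at hres
  rw [hVA] at hn'
  refine ⟨_, hres, ?_⟩
  have hxA : ∑ k ∈ AA V x, x k = (AA V x).card := by
    have : ∀ k ∈ AA V x, x k = 1 := fun k hk => (Finset.mem_filter.1 hk).2
    rw [Finset.sum_congr rfl this, Finset.sum_const, nsmul_eq_mul, mul_one]
  have hrs : ∑ i ∈ AA V x, (rs (g i) (BB V x) : ℤ) = (A1 A V x).card := by
    rw [Finset.sum_congr rfl fun i hi => (hg i hi).2, Finset.sum_ite_mem,
      Finset.inter_eq_right.2 hsub, Finset.sum_const, nsmul_eq_mul, mul_one]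
  unfold nn
  rw [hn', hxA, hrs]
  ring

/-- (3d): the case `|A| < u` is impossible. -/
theorem Ctx3.case_d (h : Ctx3 A Q u r V x) (huR : u ≤ Q + 1) (hA : (AA V x).card < u) : False := by
  classical
  obtain ⟨b, hb⟩ : ∃ b, (AA V x).card + b = u := ⟨u - (AA V x).card, by omega⟩
  have hb1 : 1 ≤ b := by omega
  have hQ2 := h.hQ
  have hr := h.hr
  have hBV : BB V x ⊆ V := Finset.filter_subset _ _
  have hdAB : Disjoint (AA V x) (BB V x) := disjoint_AA_BB
  have hcardV : (AA V x).card + (BB V x).card = u + (Q + 1) := by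
    rw [← Finset.card_union_of_disjoint hdAB, h.AA_union_BB, h.val.1]
  have hsA : (SS A V x).card + (A1 A V x).card = (AA V x).card := by
    rw [← Finset.card_union_of_disjoint disjoint_SS_A1, SS_union_A1]
  have hxA : ∑ k ∈ AA V x, x k = (AA V x).card := by
    have : ∀ k ∈ AA V x, x k = 1 := fun k hk => (Finset.mem_filter.1 hk).2
    rw [Finset.sum_congr rfl this, Finset.sum_const, nsmul_eq_mul, mul_one]
  have hxB : (2 : ℤ) * (BB V x).card ≤ ∑ k ∈ BB V x, x k := by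
    have h1 : ∑ _k ∈ BB V x, (2 : ℤ) ≤ ∑ k ∈ BB V x, x k :=
      Finset.sum_le_sum fun k hk => (Finset.mem_filter.1 hk).2
    rw [Finset.sum_const, nsmul_eq_mul] at h1
    linarith
  have hxV : ∑ k ∈ V, x k = ∑ k ∈ AA V x, x k + ∑ k ∈ BB V x, x k := by
    rw [← Finset.sum_union hdAB, h.AA_union_BB]
  have hn_ge : (u : ℤ) + b + 2 * (Q + 1) - r ≤ nn V x r := by
    unfold nn
    rw [hxV, hxA]
    have e1 : ((BB V x).card : ℤ) = Q + 1 + b := by
      have : (BB V x).card = Q + 1 + b := by omega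
      rw [this]; push_cast; ring
    rw [e1] at hxB
    have e2 : ((AA V x).card : ℤ) = u - b := by
      have : ((AA V x).card : ℤ) + b = u := by exact_mod_cast hb
      linarith
    rw [e2]
    linarith
  -- `θ ≤ 1`
  have hQr : (2 : ℝ) ≤ Q := by exact_mod_cast hQ2
  have hur : (u : ℝ) ≤ Q + 1 := by exact_mod_cast huR
  have hrr : (r : ℝ) ≤ Q := by exact_mod_cast hr
  have hu0 : (0 : ℝ) ≤ u := Nat.cast_nonneg u
  have hth1 : th Q u V x r ≤ 1 := by
    have h1 := h.toCtx.th_le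
    have h2 : (u : ℝ) * r ≤ ((Q : ℝ) + 1) * Q := by
      calc (u : ℝ) * r ≤ u * Q := mul_le_mul_of_nonneg_left hrr hu0
        _ ≤ ((Q : ℝ) + 1) * Q := mul_le_mul_of_nonneg_right hur (by linarith)
    have h3 : ((Q : ℝ) + 1) * Q * th Q u V x r ≤ ((Q : ℝ) + 1) * Q * 1 := by linarith
    exact le_of_mul_le_mul_left h3 (by positivity)
  have hn_eq := h.toCtx.n_eq
  have hn_le : nn V x r ≤ 2 * u + Q := by
    have h1 : (nn V x r : ℝ) ≤ 2 * u + Q := by
      rw [hn_eq]
      have : (0 : ℝ) ≤ 2 * u + Q := by positivity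
      nlinarith
    exact_mod_cast h1
  have hbQ : b + 1 ≤ Q := by omega
  -- restriction to `B`
  obtain ⟨x', hval', hnB⟩ := h.restrict_AA hb
  have havg := avg A (R := Q + 1) (by omega) hb1 hval'
  have hnBge : (Q + 1 - r) + 3 * (b : ℤ) + (SS A V x).card ≤ nn (BB V x) x' r := by
    rw [hnB]
    have e1 : ((AA V x).card : ℤ) + b = u := by exact_mod_cast hb
    have e2 : ((SS A V x).card : ℤ) + (A1 A V x).card = (AA V x).card := by exact_mod_cast hsA
    have e3 : (u : ℤ) ≤ Q + 1 := by exact_mod_cast huR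
    linarith
  -- the total
  have htot : 2 * A.MM V = ∑ k ∈ AA V x, A.Mr k V + ∑ k ∈ BB V x, A.Mr k (AA V x)
      + 2 * A.MM (BB V x) := by
    rw [A.two_MM V, A.two_MM (BB V x)]
    have e1 : ∑ k ∈ V, A.Mr k V = ∑ k ∈ AA V x, A.Mr k V + ∑ k ∈ BB V x, A.Mr k V := by
      rw [← Finset.sum_union hdAB, h.AA_union_BB]
    have e2 : ∀ k ∈ BB V x, A.Mr k V = A.Mr k (AA V x) + A.Mr k (BB V x) := by
      intro k _
      rw [← A.Mr_union k hdAB, h.AA_union_BB]
    rw [e1, Finset.sum_congr rfl e2, Finset.sum_add_distrib]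
    ring
  have hss := h.star_star
  have hMM := h.toCtx.MM_le
  have hnBr : (nn (BB V x) x' r : ℝ) = nn V x r - (AA V x).card - (A1 A V x).card := by
    rw [hnB]; push_cast; ring
  have hsAr : ((SS A V x).card : ℝ) + (A1 A V x).card = (AA V x).card := by exact_mod_cast hsA
  have hnBger : ((Q : ℝ) + 1 - r) + 3 * (b : ℝ) + (SS A V x).card ≤ nn (BB V x) x' r := by
    exact_mod_cast hnBge
  have hbr1 : (1 : ℝ) ≤ b := by exact_mod_cast hb1
  have hbQr : (b : ℝ) + 1 ≤ Q := by exact_mod_cast hbQ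
  have hs0 : (0 : ℝ) ≤ (SS A V x).card := Nat.cast_nonneg _
  set s : ℝ := ((SS A V x).card : ℝ)
  set a1 : ℝ := ((A1 A V x).card : ℝ)
  set aa : ℝ := ((AA V x).card : ℝ)
  set nB : ℝ := (nn (BB V x) x' r : ℝ)
  set n : ℝ := (nn V x r : ℝ)
  set θ : ℝ := th Q u V x r
  set MB : ℝ := A.MM (BB V x)
  have hQθ : (Q : ℝ) * θ ≤ Q := by nlinarith
  have hup : 2 * MB ≤ Q + nB + s := by
    have e1 : 2 * A.MM V ≤ n + Q * θ := by
      linarith
    linarith
  push_cast at havg
  have e2 : (b : ℝ) + (Q + 1) - 1 = b + Q := by ring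
  rw [e2] at havg
  have e3 : 2 * (b : ℝ) * (Q + 1) * MB ≤ b * (Q + 1) * (Q + nB + s) := by
    have := mul_le_mul_of_nonneg_left hup (show (0 : ℝ) ≤ b * (Q + 1) by positivity)
    linarith
  -- `Q R n_B ≤ b R (Q + s) + b (b + Q) r`
  have e4 : (Q : ℝ) * (Q + 1) * nB ≤ b * (Q + 1) * (Q + s) + b * (b + Q) * r := by
    have e3' := havg.trans e3
    have i1 : ((b : ℝ) + Q) * ((Q + 1) * nB - b * r)
        = Q * (Q + 1) * nB + b * (Q + 1) * nB - b * (b + Q) * r := by ring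
    have i2 : (b : ℝ) * (Q + 1) * (Q + nB + s)
        = b * (Q + 1) * (Q + s) + b * (Q + 1) * nB := by ring
    rw [i1, i2] at e3'
    linarith
  have e5 : (Q : ℝ) * (Q + 1) * (((Q : ℝ) + 1 - r) + 3 * (b : ℝ) + s) ≤ Q * (Q + 1) * nB :=
    mul_le_mul_of_nonneg_left hnBger (by positivity)
  set δ : ℝ := (Q : ℝ) + 1 - r with hδ
  have hδ1 : 1 ≤ δ := by linarith
  have hrδ : (r : ℝ) = Q + 1 - δ := by rw [hδ]; ring
  rw [hrδ] at e4
  -- contradiction
  have hQb : (0 : ℝ) ≤ Q - b := by linarith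
  have hQ1 : (0 : ℝ) ≤ (Q : ℝ) + 1 := by linarith
  have p1 : 0 ≤ ((Q : ℝ) - b) * (Q + 1) * s := mul_nonneg (mul_nonneg hQb hQ1) hs0
  have p2 : 0 < (Q : ℝ) * (Q + 1) * δ := by positivity
  have p3 : 0 ≤ (b : ℝ) * (b + Q) * δ := by positivity
  have p4 : 0 ≤ (b : ℝ) * (Q + 1) * (Q - b) :=
    mul_nonneg (mul_nonneg (by linarith) hQ1) hQb
  have e6 := e5.trans e4
  have j1 : (Q : ℝ) * (Q + 1) * (δ + 3 * (b : ℝ) + s)
      = Q * (Q + 1) * δ + 3 * (Q * (Q + 1) * b) + Q * (Q + 1) * s := by ring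
  have j2 : (b : ℝ) * (Q + 1) * (Q + s) + b * (b + Q) * (Q + 1 - δ)
      = Q * (Q + 1) * b + b * (Q + 1) * s + b * b * (Q + 1) + Q * (Q + 1) * b
        - b * (b + Q) * δ := by ring
  have j3 : ((Q : ℝ) - b) * (Q + 1) * s = Q * (Q + 1) * s - b * (Q + 1) * s := by ring
  have j4 : (b : ℝ) * (Q + 1) * (Q - b) = Q * (Q + 1) * b - b * b * (Q + 1) := by ring
  rw [j1, j2] at e6
  rw [j3] at p1
  rw [j4] at p4
  linarith

end FRow

end H23FO
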