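import Mathlib

namespace H23FO
open Finset

set_option linter.unusedSectionVars false

variable {ι : Type*} [DecidableEq ι]

/-- Random rows: part `k` has the finite set `S k` of rows `g : ι → ℕ` (numbers of missing
neighbours in the other parts), `p k` is a positive probability on `S k`; the mean matrix is
symmetric. -/
structure FRow (ι : Type*) where
  S : ι → Finset (ι → ℕ)
  p : ι → (ι → ℕ) → ℝ
  ne : ∀ k, (S k).Nonempty
  pos : ∀ k, ∀ g ∈ S k, 0 < p k g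
  sum_one : ∀ k, ∑ g ∈ S k, p k g = 1
  diag : ∀ k, ∀ g ∈ S k, g k = 0
  symm : ∀ k i, ∑ g ∈ S k, p k g * (g i : ℝ) = ∑ g ∈ S i, p i g * (g k : ℝ)

namespace FRow

variable (A : FRow ι)

/-- mean matrix -/
noncomputable def M (k i : ι) : ℝ := ∑ g ∈ A.S k, A.p k g * (g i : ℝ)

/-- total number of (mean) missing pairs inside `V` -/
noncomputable def MM (V : Finset ι) : ℝ := (∑ k ∈ V, ∑ i ∈ V, A.M k i) / 2

/-- mean row sum of part `k` into `T` -/
noncomputable def Mr (k : ι) (T : Finset ι) : ℝ := ∑ i ∈ T, A.M k i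

/-- row sum of the row `g` into `T` -/
def rs (g : ι → ℕ) (T : Finset ι) : ℕ := ∑ i ∈ T, g i

/-- Validity of the system `(V, u, r, x)`. -/
def Valid (R u : ℕ) (r : ℤ) (V : Finset ι) (x : ι → ℤ) : Prop :=
  V.card = u + R ∧ ∀ I ⊆ V, I.card = u → ∀ g : ι → ι → ℕ, (∀ i ∈ I, g i ∈ A.S i) →
    (∑ k ∈ V, x k) - r - ∑ i ∈ I, x i ≤ ∑ i ∈ I, (rs (g i) (V \ I) : ℤ)

/-- The claim (first order lemma) for the parameters `u`, `Q = R - 1`. -/
def Claim (Q u : ℕ) : Prop :=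
  ∀ (r : ℤ) (V : Finset ι) (x : ι → ℤ), r ≤ Q → A.Valid (Q + 1) u r V x →
    0 < (∑ k ∈ V, x k) - r →
    ((u : ℝ) + Q) * (((∑ k ∈ V, x k : ℤ) : ℝ) - r) < (2 * u + Q) * A.MM V

lemma M_symm (k i : ι) : A.M k i = A.M i k := A.symm k i

lemma M_nonneg (k i : ι) : 0 ≤ A.M k i :=
  Finset.sum_nonneg fun g hg => mul_nonneg (A.pos k g hg).le (Nat.cast_nonneg _)

lemma M_diag (k : ι) : A.M k k = 0 := by
  unfold M
  refine Finset.sum_eq_zero fun g hg => ?_
  rw [A.diag k g hg]; simp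

lemma Mr_nonneg (k : ι) (T : Finset ι) : 0 ≤ A.Mr k T :=
  Finset.sum_nonneg fun i _ => A.M_nonneg k i

lemma MM_nonneg (V : Finset ι) : 0 ≤ A.MM V := by
  unfold MM
  have : 0 ≤ ∑ k ∈ V, ∑ i ∈ V, A.M k i :=
    Finset.sum_nonneg fun k _ => Finset.sum_nonneg fun i _ => A.M_nonneg k i
  linarith

lemma Mr_mono (k : ι) {T T' : Finset ι} (h : T ⊆ T') : A.Mr k T ≤ A.Mr k T' :=
  Finset.sum_le_sum_of_subset_of_nonneg h fun i _ _ => A.M_nonneg k i

/-- the mean of the row sum -/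
lemma Mr_eq (k : ι) (T : Finset ι) :
    A.Mr k T = ∑ g ∈ A.S k, A.p k g * (rs g T : ℝ) := by
  unfold Mr M rs
  rw [Finset.sum_comm]
  refine Finset.sum_congr rfl fun g _ => ?_
  push_cast
  rw [Finset.mul_sum]

/-- every row set has a member below the mean -/
lemma exists_le_mean (k : ι) (f : (ι → ℕ) → ℝ) :
    ∃ g ∈ A.S k, f g ≤ ∑ g ∈ A.S k, A.p k g * f g := by
  by_contra hcon
  push Not at hcon
  have h1 : ∑ g ∈ A.S k, A.p k g * (∑ g' ∈ A.S k, A.p k g' * f g')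
      < ∑ g ∈ A.S k, A.p k g * f g :=
    Finset.sum_lt_sum_of_nonempty (A.ne k) fun g hg =>
      mul_lt_mul_of_pos_left (hcon g hg) (A.pos k g hg)
  rw [← Finset.sum_mul, A.sum_one, one_mul] at h1
  exact lt_irrefl _ h1

/-- a lower bound valid for all rows holds for the mean -/
lemma le_mean (k : ι) (f : (ι → ℕ) → ℝ) (c : ℝ) (h : ∀ g ∈ A.S k, c ≤ f g) :
    c ≤ ∑ g ∈ A.S k, A.p k g * f g := by
  have : ∑ g ∈ A.S k, A.p k g * c ≤ ∑ g ∈ A.S k, A.p k g * f g :=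
    Finset.sum_le_sum fun g hg => mul_le_mul_of_nonneg_left (h g hg) (A.pos k g hg).le
  rwa [← Finset.sum_mul, A.sum_one, one_mul] at this

/-- a minimal row with respect to a set -/
lemma exists_min (k : ι) (T : Finset ι) :
    ∃ g ∈ A.S k, (∀ g' ∈ A.S k, rs g T ≤ rs g' T) ∧ (rs g T : ℝ) ≤ A.Mr k T := by
  obtain ⟨g, hg, hmin⟩ := Finset.exists_min_image (A.S k) (fun g => rs g T) (A.ne k)
  refine ⟨g, hg, hmin, ?_⟩
  rw [Mr_eq]
  exact A.le_mean k _ _ fun g' hg' => by exact_mod_cast hmin g' hg'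

lemma Mr_union (k : ι) {T T' : Finset ι} (h : Disjoint T T') :
    A.Mr k (T ∪ T') = A.Mr k T + A.Mr k T' := by
  unfold Mr; exact Finset.sum_union h

lemma Mr_sdiff (k : ι) {T T' : Finset ι} (h : T' ⊆ T) :
    A.Mr k (T \ T') + A.Mr k T' = A.Mr k T := by
  unfold Mr; exact Finset.sum_sdiff h

lemma Mr_erase (k : ι) (T : Finset ι) : A.Mr k (T.erase k) = A.Mr k T := by
  unfold Mr
  refine Finset.sum_subset (Finset.erase_subset _ _) fun i hi hni => ?_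
  have : i = k := by
    by_contra hne
    exact hni (Finset.mem_erase.2 ⟨hne, hi⟩)
  rw [this]; exact A.M_diag k

lemma rs_union (g : ι → ℕ) {T T' : Finset ι} (h : Disjoint T T') :
    rs g (T ∪ T') = rs g T + rs g T' := by
  unfold rs; exact Finset.sum_union h

lemma rs_sdiff (g : ι → ℕ) {T T' : Finset ι} (h : T' ⊆ T) :
    rs g (T \ T') + rs g T' = rs g T := by
  unfold rs; exact Finset.sum_sdiff h

omit [DecidableEq ι] in
lemma rs_mono (g : ι → ℕ) {T T' : Finset ι} (h : T ⊆ T') : rs g T ≤ rs g T' :=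
  Finset.sum_le_sum_of_subset h

/-- splitting `MM` along a subset -/
lemma MM_split {V C : Finset ι} (h : C ⊆ V) :
    A.MM V = A.MM C + A.MM (V \ C) + ∑ k ∈ C, A.Mr k (V \ C) := by
  unfold MM Mr
  have h1 : ∀ k, ∑ i ∈ V, A.M k i = ∑ i ∈ V \ C, A.M k i + ∑ i ∈ C, A.M k i := fun k =>
    (Finset.sum_sdiff h).symm
  rw [← Finset.sum_sdiff (s₁ := C) (s₂ := V) h]
  simp_rw [h1]
  rw [Finset.sum_add_distrib, Finset.sum_add_distrib]
  have h2 : ∑ k ∈ V \ C, ∑ i ∈ C, A.M k i = ∑ k ∈ C, ∑ i ∈ V \ C, A.M k i := by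
    rw [Finset.sum_comm]
    exact Finset.sum_congr rfl fun k _ => Finset.sum_congr rfl fun i _ => A.M_symm _ _
  rw [h2]; ring

/-- removing one part -/
lemma MM_erase {V : Finset ι} {k : ι} (hk : k ∈ V) :
    A.MM V = A.MM (V.erase k) + A.Mr k V := by
  have h := A.MM_split (V := V) (C := {k}) (Finset.singleton_subset_iff.2 hk)
  have h0 : A.MM {k} = 0 := by
    unfold MM; simp [A.M_diag]
  rw [h0, Finset.sdiff_singleton_eq_erase, Finset.sum_singleton, A.Mr_erase] at h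
  linarith

lemma two_MM (V : Finset ι) : 2 * A.MM V = ∑ k ∈ V, A.Mr k V := by
  unfold MM Mr; ring

lemma MM_mono {V C : Finset ι} (h : C ⊆ V) : A.MM C ≤ A.MM V := by
  rw [A.MM_split h]
  have h1 := A.MM_nonneg (V \ C)
  have h2 : 0 ≤ ∑ k ∈ C, A.Mr k (V \ C) := Finset.sum_nonneg fun k _ => A.Mr_nonneg k _
  linarith

/-- **Restriction**: deleting the set `C` of parts, with chosen rows. -/
lemma Valid.restrict {A : FRow ι} {R u : ℕ} {r : ℤ} {V : Finset ι} {x : ι → ℤ}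
    (h : A.Valid R u r V x) {C : Finset ι} (hC : C ⊆ V) (hc : C.card ≤ u)
    (g : ι → ι → ℕ) (hg : ∀ i ∈ C, g i ∈ A.S i) :
    A.Valid R (u - C.card) r (V \ C) (fun k => x k - ∑ i ∈ C, (g i k : ℤ)) := by
  obtain ⟨hcard, hval⟩ := h
  refine ⟨?_, ?_⟩
  · rw [Finset.card_sdiff_of_subset hC, hcard]; omega
  · intro I hI hIc g' hg'
    have hdis : Disjoint C I := by
      rw [Finset.disjoint_left]
      intro i hi hi'
      exact (Finset.mem_sdiff.1 (hI hi')).2 hi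
    have hIV : I ⊆ V := hI.trans Finset.sdiff_subset
    have hsub : C ∪ I ⊆ V := Finset.union_subset hC hIV
    have hcu : (C ∪ I).card = u := by
      rw [Finset.card_union_of_disjoint hdis, hIc]; omega
    have hch := hval (C ∪ I) hsub hcu (fun i => if i ∈ C then g i else g' i) (by
      intro i hi
      by_cases hiC : i ∈ C
      · simp only [hiC, if_true]; exact hg i hiC
      · simp only [hiC, if_false]
        exact hg' i ((Finset.mem_union.1 hi).resolve_left hiC))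
    have hVCI : V \ (C ∪ I) = (V \ C) \ I := by
      rw [Finset.sdiff_union_distrib]
      ext a; simp only [Finset.mem_inter, Finset.mem_sdiff]; tauto
    rw [hVCI, Finset.sum_union hdis, Finset.sum_union hdis] at hch
    have e1 : ∑ i ∈ C, (rs (if i ∈ C then g i else g' i) ((V \ C) \ I) : ℤ)
        = ∑ i ∈ C, (rs (g i) ((V \ C) \ I) : ℤ) :=
      Finset.sum_congr rfl fun i hi => by simp only [hi, if_true]
    have e2 : ∑ i ∈ I, (rs (if i ∈ C then g i else g' i) ((V \ C) \ I) : ℤ)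
        = ∑ i ∈ I, (rs (g' i) ((V \ C) \ I) : ℤ) :=
      Finset.sum_congr rfl fun i hi => by
        have : i ∉ C := (Finset.mem_sdiff.1 (hI hi)).2
        simp only [this, if_false]
    rw [e1, e2] at hch
    have e3 : ∑ i ∈ C, (rs (g i) ((V \ C) \ I) : ℤ)
        = ∑ k ∈ (V \ C) \ I, ∑ i ∈ C, (g i k : ℤ) := by
      unfold rs; push_cast; rw [Finset.sum_comm]
    have e4 : ∑ k ∈ V \ C, (x k - ∑ i ∈ C, (g i k : ℤ))
        = ∑ k ∈ V \ C, x k - ∑ k ∈ V \ C, ∑ i ∈ C, (g i k : ℤ) := Finset.sum_sub_distrib _ _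
    have e5 : ∑ k ∈ I, (x k - ∑ i ∈ C, (g i k : ℤ))
        = ∑ k ∈ I, x k - ∑ k ∈ I, ∑ i ∈ C, (g i k : ℤ) := Finset.sum_sub_distrib _ _
    have e6 : ∑ k ∈ V \ C, x k + ∑ k ∈ C, x k = ∑ k ∈ V, x k := Finset.sum_sdiff hC
    have e7 : ∑ k ∈ (V \ C) \ I, ∑ i ∈ C, (g i k : ℤ) + ∑ k ∈ I, ∑ i ∈ C, (g i k : ℤ)
        = ∑ k ∈ V \ C, ∑ i ∈ C, (g i k : ℤ) := Finset.sum_sdiff hI
    rw [e3] at hch
    rw [e4, e5]
    linarith

/-- the new `n` after a restriction -/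
lemma restrict_n {V C : Finset ι} (hC : C ⊆ V) (x : ι → ℤ) (g : ι → ι → ℕ) :
    ∑ k ∈ V \ C, (x k - ∑ i ∈ C, (g i k : ℤ))
      = ∑ k ∈ V, x k - ∑ k ∈ C, x k - ∑ i ∈ C, (rs (g i) (V \ C) : ℤ) := by
  have e4 : ∑ k ∈ V \ C, (x k - ∑ i ∈ C, (g i k : ℤ))
      = ∑ k ∈ V \ C, x k - ∑ k ∈ V \ C, ∑ i ∈ C, (g i k : ℤ) := Finset.sum_sub_distrib _ _
  have e6 : ∑ k ∈ V \ C, x k + ∑ k ∈ C, x k = ∑ k ∈ V, x k := Finset.sum_sdiff hC
  have e3 : ∑ i ∈ C, (rs (g i) (V \ C) : ℤ) = ∑ k ∈ V \ C, ∑ i ∈ C, (g i k : ℤ) := by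
    unfold rs; push_cast; rw [Finset.sum_comm]
  rw [e4, e3]; linarith

end FRow

end H23FO
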