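import Pool.Agent.H23.FO.Defs

namespace H23FO
open Finset

set_option linter.unusedSectionVars false

variable {ι : Type*} [DecidableEq ι]

namespace FRow

/-- `n = x(V) - r` -/
def nn (V : Finset ι) (x : ι → ℤ) (r : ℤ) : ℤ := (∑ k ∈ V, x k) - r

/-- A minimal counterexample to the claim. -/
structure Ctx (A : FRow ι) (Q u : ℕ) (r : ℤ) (V : Finset ι) (x : ι → ℤ) : Prop where
  hQ : 2 ≤ Q
  hr : r ≤ Q
  val : A.Valid (Q + 1) u r V x
  hn : 0 < nn V x r
  hM : (2 * (u : ℝ) + Q) * A.MM V ≤ ((u : ℝ) + Q) * (nn V x r : ℝ)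
  ih : ∀ u' < u, A.Claim Q u'

/-- `θ = n / (2u + Q)` -/
noncomputable def th (Q u : ℕ) (V : Finset ι) (x : ι → ℤ) (r : ℤ) : ℝ :=
  (nn V x r : ℝ) / (2 * u + Q)

variable {A : FRow ι} {Q u : ℕ} {r : ℤ} {V : Finset ι} {x : ι → ℤ}

lemma Ctx.n_eq (h : Ctx A Q u r V x) : (nn V x r : ℝ) = (2 * u + Q) * th Q u V x r := by
  unfold th
  have : (0 : ℝ) < 2 * u + Q := by
    have := h.hQ
    have h2 : (2 : ℝ) ≤ Q := by exact_mod_cast this
    positivity
  field_simp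

lemma Ctx.th_pos (h : Ctx A Q u r V x) : 0 < th Q u V x r := by
  unfold th
  have : (0 : ℝ) < 2 * u + Q := by
    have := h.hQ
    have h2 : (2 : ℝ) ≤ Q := by exact_mod_cast this
    positivity
  have h3 : (0 : ℝ) < nn V x r := by exact_mod_cast h.hn
  positivity

lemma Ctx.MM_le (h : Ctx A Q u r V x) : A.MM V ≤ (u + Q) * th Q u V x r := by
  have h1 := h.hM
  have h2 : (2 : ℝ) ≤ Q := by exact_mod_cast h.hQ
  have h3 : (0 : ℝ) < 2 * u + Q := by positivity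
  rw [h.n_eq] at h1
  have h4 : (2 * (u : ℝ) + Q) * A.MM V ≤ (2 * (u : ℝ) + Q) * ((u + Q) * th Q u V x r) := by
    linarith
  exact le_of_mul_le_mul_left h4 h3

/-- **(EC)**: the basic inequality of a minimal counterexample, `b = u - |C|`; it is strict if
the restricted system has `n' > 0`. -/
theorem Ctx.EC (h : Ctx A Q u r V x) {C : Finset ι} (hC : C ⊆ V) (hne : C.Nonempty) {b : ℕ}
    (hb : C.card + b = u) (g : ι → ι → ℕ) (hg : ∀ i ∈ C, g i ∈ A.S i) :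
    (2 * (b : ℝ) + Q) * (A.MM V - A.MM (V \ C)) + (C.card : ℝ) * Q * th Q u V x r
        ≤ ((b : ℝ) + Q) * (((∑ k ∈ C, x k : ℤ) : ℝ) + ∑ i ∈ C, (rs (g i) (V \ C) : ℝ))
    ∧ (0 < nn V x r - ∑ k ∈ C, x k - ∑ i ∈ C, (rs (g i) (V \ C) : ℤ) →
      (2 * (b : ℝ) + Q) * (A.MM V - A.MM (V \ C)) + (C.card : ℝ) * Q * th Q u V x r
        < ((b : ℝ) + Q) * (((∑ k ∈ C, x k : ℤ) : ℝ) + ∑ i ∈ C, (rs (g i) (V \ C) : ℝ))) := by
  have hc1 : 1 ≤ C.card := hne.card_pos
  have hcu : C.card ≤ u := by omega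
  have hbe : u - C.card = b := by omega
  have hblt : b < u := by omega
  have hQ : (2 : ℝ) ≤ Q := by exact_mod_cast h.hQ
  have hres := h.val.restrict hC hcu g hg
  rw [hbe] at hres
  have hn' := restrict_n hC x g
  set x' : ι → ℤ := fun k => x k - ∑ i ∈ C, (g i k : ℤ) with hx'
  set n' : ℤ := nn V x r - ∑ k ∈ C, x k - ∑ i ∈ C, (rs (g i) (V \ C) : ℤ) with hn'def
  have hn'2 : (∑ k ∈ V \ C, x' k) - r = n' := by
    rw [hn', hn'def, nn]; ring
  have hbu : (C.card : ℝ) + b = u := by exact_mod_cast hb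
  have hMM := h.MM_le
  have hne := h.n_eq
  have hthpos := h.th_pos
  have hcast : (n' : ℝ) = nn V x r - ((∑ k ∈ C, x k : ℤ) : ℝ)
      - ∑ i ∈ C, (rs (g i) (V \ C) : ℝ) := by
    rw [hn'def]; push_cast; ring
  set θ := th Q u V x r with hθ
  set X : ℝ := ((∑ k ∈ C, x k : ℤ) : ℝ)
  set O : ℝ := ∑ i ∈ C, (rs (g i) (V \ C) : ℝ)
  have hb0 : (0 : ℝ) ≤ b := Nat.cast_nonneg b
  have hkey : (2 * (b : ℝ) + Q) * A.MM V ≤ (2 * (b : ℝ) + Q) * ((u + Q) * θ) :=
    mul_le_mul_of_nonneg_left hMM (by positivity)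
  have hid : (2 * (b : ℝ) + Q) * ((u + Q) * θ)
      = ((b : ℝ) + Q) * nn V x r - (C.card : ℝ) * Q * θ := by
    rw [hne]
    have : (u : ℝ) = C.card + b := hbu.symm
    rw [this]; ring
  refine ⟨?_, ?_⟩
  · have h1 : ((b : ℝ) + Q) * n' ≤ (2 * (b : ℝ) + Q) * A.MM (V \ C) := by
      rcases le_or_gt n' 0 with h0 | h0
      · have h0' : (n' : ℝ) ≤ 0 := by exact_mod_cast h0
        have h2 : ((b : ℝ) + Q) * n' ≤ 0 := mul_nonpos_of_nonneg_of_nonpos (by positivity) h0'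
        have h3 : 0 ≤ (2 * (b : ℝ) + Q) * A.MM (V \ C) :=
          mul_nonneg (by positivity) (A.MM_nonneg _)
        linarith
      · have h2 := h.ih b hblt r (V \ C) x' h.hr hres (by rw [hn'2]; exact h0)
        have h3 : (((∑ k ∈ V \ C, x' k : ℤ) : ℝ) - r) = n' := by
          rw [← hn'2]; push_cast; ring
        rw [h3] at h2
        exact h2.le
    rw [hcast] at h1
    nlinarith
  · intro h0
    have h2 := h.ih b hblt r (V \ C) x' h.hr hres (by rw [hn'2]; exact h0)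
    have h3 : (((∑ k ∈ V \ C, x' k : ℤ) : ℝ) - r) = n' := by
      rw [← hn'2]; push_cast; ring
    rw [h3, hcast] at h2
    nlinarith

/-- (EC) for one part. -/
theorem Ctx.EC1 (h : Ctx A Q u r V x) {k : ι} (hk : k ∈ V) (hu1 : 1 ≤ u) {g : ι → ℕ}
    (hg : g ∈ A.S k) :
    (2 * ((u : ℝ) - 1) + Q) * A.Mr k V + Q * th Q u V x r
        ≤ ((u : ℝ) - 1 + Q) * ((x k : ℝ) + (rs g V : ℝ))
    ∧ (0 < nn V x r - x k - (rs g V : ℤ) →
      (2 * ((u : ℝ) - 1) + Q) * A.Mr k V + Q * th Q u V x r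
        < ((u : ℝ) - 1 + Q) * ((x k : ℝ) + (rs g V : ℝ))) := by
  have h1 := h.EC (C := {k}) (Finset.singleton_subset_iff.2 hk) (Finset.singleton_nonempty k)
    (b := u - 1) (by rw [Finset.card_singleton]; omega) (fun _ => g) (by
      intro i hi; rw [Finset.mem_singleton.1 hi]; exact hg)
  have e1 : A.MM V - A.MM (V \ {k}) = A.Mr k V := by
    rw [Finset.sdiff_singleton_eq_erase, A.MM_erase hk]; ring
  have e2 : rs g (V \ {k}) = rs g V := by
    have := rs_sdiff g (T := V) (T' := {k}) (Finset.singleton_subset_iff.2 hk)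
    have h0 : rs g {k} = 0 := by unfold rs; simp [A.diag k g hg]
    omega
  rw [e1] at h1
  simp only [Finset.card_singleton, Finset.sum_singleton, e2, Nat.cast_one, one_mul] at h1
  rw [Nat.cast_sub hu1, Nat.cast_one] at h1
  exact h1

/-- Step 0: all surpluses are positive. -/
theorem Ctx.x_pos (h : Ctx A Q u r V x) (hu1 : 1 ≤ u) {k : ι} (hk : k ∈ V) : 1 ≤ x k := by
  by_contra hcon
  have hx : x k ≤ 0 := by omega
  obtain ⟨g, hg, hmin, hle⟩ := A.exists_min k V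
  have h1 := (h.EC1 hk hu1 hg).1
  have hQ : (2 : ℝ) ≤ Q := by exact_mod_cast h.hQ
  have hu' : (1 : ℝ) ≤ u := by exact_mod_cast hu1
  have hxr : (x k : ℝ) ≤ 0 := by exact_mod_cast hx
  have hth := h.th_pos
  have hM0 : 0 ≤ A.Mr k V := A.Mr_nonneg k V
  have hprod : 0 < (Q : ℝ) * th Q u V x r := by positivity
  nlinarith [mul_nonneg (sub_nonneg.2 hu') hM0]

/-- `u = 0` is impossible. -/
theorem Ctx.u_pos (h : Ctx A Q u r V x) : 1 ≤ u := by
  by_contra hcon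
  have hu0 : u = 0 := by omega
  have hv := h.val.2 ∅ (Finset.empty_subset _) (by rw [Finset.card_empty, hu0]) (fun _ _ => 0)
    (by simp)
  have hn := h.hn
  unfold nn at hn
  simp at hv
  omega

/-- `(T3)`: for `u` parts with arbitrary chosen rows, in terms of `z = x - 1`. -/
theorem Ctx.T3 (h : Ctx A Q u r V x) {I : Finset ι} (hI : I ⊆ V) (hIc : I.card = u)
    (g : ι → ι → ℕ) (hg : ∀ i ∈ I, g i ∈ A.S i) :
    nn V x r - u ≤ ∑ i ∈ I, ((rs (g i) (V \ I) : ℤ) + (x i - 1)) := by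
  have hv := h.val.2 I hI hIc g hg
  rw [Finset.sum_add_distrib, Finset.sum_sub_distrib, Finset.sum_const, hIc]
  unfold nn
  simp only [nsmul_eq_mul, mul_one]
  linarith

end FRow

end H23FO
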