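import Pool.Agent.H23.FO.Star

namespace H23FO
open Finset

set_option linter.unusedSectionVars false

variable {ι : Type*} [DecidableEq ι]

namespace FRow

variable {A : FRow ι} {Q u : ℕ} {r : ℤ} {V : Finset ι} {x : ι → ℤ}

/-- union of the leaves of a set of hubs -/
noncomputable def NN (A : FRow ι) (V : Finset ι) (x : ι → ℤ) (H : Finset ι) : Finset ι :=
  H.biUnion (leaves A V x)

/-- `σ(H) = |H| + |N(H)|` -/
noncomputable def sig (A : FRow ι) (V : Finset ι) (x : ι → ℤ) (H : Finset ι) : ℤ :=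
  (H.card : ℤ) + (NN A V x H).card

lemma leaves_subset (k : ι) : leaves A V x k ⊆ A1 A V x := by
  intro i hi
  exact (mem_leaves.1 hi).1

lemma NN_subset (H : Finset ι) : NN A V x H ⊆ A1 A V x := by
  intro i hi
  unfold NN at hi
  obtain ⟨k, _, hk⟩ := Finset.mem_biUnion.1 hi
  exact leaves_subset k hk

lemma Ms_eq_zero {i k : ι} (hi : i ∈ A1 A V x) (hk : i ∉ leaves A V x k) : Ms A V i k = 0 := by
  classical
  by_contra hne
  have hpos : 0 < Ms A V i k := lt_of_le_of_ne (Ms_nonneg i k) (Ne.symm hne)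
  apply hk
  unfold leaves
  simp only [Finset.mem_filter]
  exact ⟨hi, hpos⟩

lemma rs_zero_of_single {g : ι → ℕ} {k : ι} {I : Finset ι} (hk : k ∈ V) (hkI : k ∈ I)
    (hg : rs g V = 1) (hgk : g k = 1) : rs g (V \ I) = 0 := by
  have h1 : rs g (V \ I) ≤ rs g (V \ {k}) := rs_mono g (by
    intro a ha
    rw [Finset.mem_sdiff] at ha ⊢
    refine ⟨ha.1, ?_⟩
    intro hak
    rw [Finset.mem_singleton] at hak
    rw [hak] at ha
    exact ha.2 hkI)
  have h2 := rs_sdiff g (T := V) (T' := {k}) (Finset.singleton_subset_iff.2 hk)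
  have h3 : rs g {k} = 1 := by unfold rs; simp [hgk]
  omega

lemma A1_subset_AA : A1 A V x ⊆ AA V x := by
  rw [← SS_union_A1 (A := A)]
  exact Finset.subset_union_right

lemma SS_subset_AA : SS A V x ⊆ AA V x := by
  rw [← SS_union_A1 (A := A)]
  exact Finset.subset_union_left

lemma AA_subset : AA V x ⊆ V := Finset.filter_subset _ _

lemma BB_subset : BB V x ⊆ V := Finset.filter_subset _ _

lemma x_of_mem_AA {i : ι} (hi : i ∈ AA V x) : x i = 1 := by
  unfold AA at hi
  exact (Finset.mem_filter.1 hi).2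

lemma exists_empty {i : ι} (hi : i ∈ SS A V x) : ∃ g ∈ A.S i, rs g V = 0 := by
  classical
  unfold SS at hi
  simp only [Finset.mem_filter] at hi
  exact hi.2

/-- a nested set of prescribed size -/
lemma exists_nested {N B : Finset ι} (hNB : N ⊆ B) {m : ℕ} (hm : m ≤ B.card) :
    ∃ L ⊆ B, L.card = m ∧ ((N \ L).card : ℝ) + ((L \ N).card : ℝ) = |(N.card : ℝ) - m| := by
  rcases le_or_gt m N.card with hle | hlt
  · obtain ⟨L, hL, hLc⟩ := Finset.exists_subset_card_eq hle
    refine ⟨L, hL.trans hNB, hLc, ?_⟩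
    have h1 : (L \ N) = ∅ := Finset.sdiff_eq_empty_iff_subset.2 hL
    have h2 : (N \ L).card + L.card = N.card := Finset.card_sdiff_add_card_eq_card hL
    have h3 : ((N \ L).card : ℝ) + L.card = N.card := by exact_mod_cast h2
    have h4 : (m : ℝ) ≤ N.card := by exact_mod_cast hle
    rw [h1, Finset.card_empty, abs_of_nonneg (by linarith)]
    rw [hLc] at h3
    push_cast
    linarith
  · obtain ⟨L, hNL, hLB, hLc⟩ := Finset.exists_subsuperset_card_eq hNB hlt.le hm
    refine ⟨L, hLB, hLc, ?_⟩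
    have h1 : (N \ L) = ∅ := Finset.sdiff_eq_empty_iff_subset.2 hNL
    have h2 : (L \ N).card + N.card = L.card := Finset.card_sdiff_add_card_eq_card hNL
    have h3 : ((L \ N).card : ℝ) + N.card = L.card := by exact_mod_cast h2
    have h4 : (N.card : ℝ) ≤ m := by exact_mod_cast hlt.le
    rw [h1, Finset.card_empty, abs_of_nonpos (by linarith)]
    rw [hLc] at h3
    push_cast
    linarith

/-- **(3g) groups**: `f(H) + z(H) ≥ δ + Z - |σ(H) - U|` with `U = u - s`, `δ + Z = n - u`. -/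
theorem Ctx3.groups (h : Ctx3 A Q u r V x) (hA : u ≤ (AA V x).card) {H : Finset ι}
    (hH : H ⊆ BB V x) (hHc : (H.card : ℤ) + (SS A V x).card ≤ u) :
    (nn V x r : ℝ) - u - |(sig A V x H : ℝ) - ((u : ℝ) - (SS A V x).card)|
      ≤ ∑ k ∈ H, (ff A V x k + (x k - 1)) := by
  classical
  have hAcard : (SS A V x).card + (A1 A V x).card = (AA V x).card := by
    rw [← SS_union_A1 (A := A)]
    exact (Finset.card_union_of_disjoint disjoint_SS_A1).symm
  obtain ⟨m, hm⟩ : ∃ m : ℕ, H.card + (SS A V x).card + m = u := by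
    refine ⟨u - (H.card + (SS A V x).card), ?_⟩
    omega
  have hmle : m ≤ (A1 A V x).card := by omega
  obtain ⟨L, hLA, hLc, hLN⟩ := exists_nested (NN_subset (A := A) (V := V) (x := x) H) hmle
  set N := NN A V x H with hNdef
  -- disjointness
  have hLAA : L ⊆ AA V x := hLA.trans A1_subset_AA
  have hdSL : Disjoint (SS A V x) L := Finset.disjoint_of_subset_right hLA disjoint_SS_A1
  have hdSLu : Disjoint (SS A V x ∪ L) H := by
    exact Finset.disjoint_of_subset_left (Finset.union_subset SS_subset_AA hLAA)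
      (Finset.disjoint_of_subset_right hH disjoint_AA_BB)
  set I := (SS A V x ∪ L) ∪ H with hI
  have hIV : I ⊆ V := by
    rw [hI]
    exact Finset.union_subset (Finset.union_subset (SS_subset_AA.trans AA_subset)
      (hLAA.trans AA_subset)) (hH.trans BB_subset)
  have hIc : I.card = u := by
    rw [hI, Finset.card_union_of_disjoint hdSLu, Finset.card_union_of_disjoint hdSL, hLc]
    omega
  -- rows
  have hrow : ∀ i : ι, ∃ g : ι → ℕ, (i ∈ I → g ∈ A.S i) ∧
      (i ∈ SS A V x → (rs g (V \ I) : ℝ) ≤ 0) ∧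
      (i ∈ L → (rs g (V \ I) : ℝ) ≤ if i ∈ N then 0 else 1) ∧
      (i ∈ H → (rs g (V \ I) : ℝ) ≤ A.Mr i (V \ I)) := by
    intro i
    by_cases hiS : i ∈ SS A V x
    · obtain ⟨g, hg, hg0⟩ := exists_empty hiS
      have h0 : rs g (V \ I) = 0 := by
        have := rs_mono g (Finset.sdiff_subset (s := V) (t := I))
        omega
      refine ⟨g, fun _ => hg, fun _ => by rw [h0]; simp, fun _ => ?_, fun hiH => ?_⟩
      · rw [h0]; split_ifs <;> simp
      · rw [h0]; simpa using A.Mr_nonneg i (V \ I)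
    · by_cases hiL : i ∈ L
      · by_cases hiN : i ∈ N
        · rw [hNdef] at hiN
          have hiN' := hiN
          unfold NN at hiN'
          obtain ⟨k, hkH, hk⟩ := Finset.mem_biUnion.1 hiN'
          obtain ⟨_, g, hg, hg1, hgk⟩ := mem_leaves.1 hk
          have hkI : k ∈ I := by rw [hI]; exact Finset.mem_union_right _ hkH
          have h0 : rs g (V \ I) = 0 := rs_zero_of_single (hIV hkI) hkI hg1 hgk
          refine ⟨g, fun _ => hg, fun h' => absurd h' hiS, fun _ => ?_, fun hiH => ?_⟩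
          · rw [h0]; split_ifs <;> simp
          · rw [h0]; simpa using A.Mr_nonneg i (V \ I)
        · obtain ⟨g, hg, hg1, _⟩ := h.exists_single (hLA hiL)
          have h0 : rs g (V \ I) ≤ 1 := by
            have := rs_mono g (Finset.sdiff_subset (s := V) (t := I))
            omega
          refine ⟨g, fun _ => hg, fun h' => absurd h' hiS, fun _ => ?_, fun hiH => ?_⟩
          · rw [if_neg hiN]; exact_mod_cast h0
          · exact absurd hiH (Finset.disjoint_left.1 hdSLu (Finset.mem_union_right _ hiL))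
      · obtain ⟨g, hg, _, hle⟩ := A.exists_min i (V \ I)
        exact ⟨g, fun _ => hg, fun h' => absurd h' hiS, fun h' => absurd h' hiL, fun _ => hle⟩
  choose g hg1 hg2 hg3 hg4 using hrow
  have hT := h.toCtx.T3 hIV hIc g (fun i hi => hg1 i hi)
  have hT' : (nn V x r : ℝ) - u ≤ ∑ i ∈ I, ((rs (g i) (V \ I) : ℝ) + ((x i : ℝ) - 1)) := by
    exact_mod_cast hT
  rw [hI, Finset.sum_union hdSLu, Finset.sum_union hdSL, ← hI] at hT'
  have hS0 : ∑ i ∈ SS A V x, ((rs (g i) (V \ I) : ℝ) + ((x i : ℝ) - 1)) ≤ 0 := by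
    refine Finset.sum_nonpos fun i hi => ?_
    have h1 := hg2 i hi
    have h2 : (x i : ℝ) = 1 := by exact_mod_cast x_of_mem_AA (SS_subset_AA hi)
    rw [h2]; linarith
  have hL0 : ∑ i ∈ L, ((rs (g i) (V \ I) : ℝ) + ((x i : ℝ) - 1)) ≤ ((L \ N).card : ℝ) := by
    have h1 : ∑ i ∈ L, ((rs (g i) (V \ I) : ℝ) + ((x i : ℝ) - 1))
        ≤ ∑ i ∈ L, (if i ∈ N then (0 : ℝ) else 1) := by
      refine Finset.sum_le_sum fun i hi => ?_
      have h1 := hg3 i hi
      have h2 : (x i : ℝ) = 1 := by exact_mod_cast x_of_mem_AA (hLAA hi)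
      rw [h2]; linarith
    have h2 : ∑ i ∈ L, (if i ∈ N then (0 : ℝ) else 1) = ((L \ N).card : ℝ) := by
      have h3 : ∀ i ∈ L, (if i ∈ N then (0 : ℝ) else 1) = if i ∉ N then (1 : ℝ) else 0 := by
        intro i _
        by_cases hi : i ∈ N <;> simp [hi]
      rw [Finset.sum_congr rfl h3, ← Finset.sum_filter, Finset.sum_const, nsmul_eq_mul, mul_one,
        Finset.sdiff_eq_filter]
    linarith
  -- hubs
  have hHk : ∀ k ∈ H, A.Mr k (V \ I) ≤ ff A V x k + ∑ i ∈ A1 A V x \ L, Ms A V i k := by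
    intro k hk
    have h1 := A.Mr_sdiff k hIV
    have hLI : L ⊆ I := by
      rw [hI]
      exact (Finset.subset_union_right).trans Finset.subset_union_left
    have h2 : A.Mr k L ≤ A.Mr k I := A.Mr_mono k hLI
    have h3 : ∑ i ∈ L, Ms A V i k ≤ A.Mr k L := by
      unfold Mr
      refine Finset.sum_le_sum fun i _ => ?_
      rw [A.M_symm k i]
      exact Ms_le_M i k
    have h4 : ∑ i ∈ A1 A V x \ L, Ms A V i k + ∑ i ∈ L, Ms A V i k
        = ∑ i ∈ A1 A V x, Ms A V i k := Finset.sum_sdiff hLA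
    unfold ff
    linarith
  have hHs : ∑ k ∈ H, ∑ i ∈ A1 A V x \ L, Ms A V i k ≤ ((N \ L).card : ℝ) := by
    rw [Finset.sum_comm]
    have h1 : ∑ i ∈ A1 A V x \ L, ∑ k ∈ H, Ms A V i k
        ≤ ∑ i ∈ A1 A V x \ L, (if i ∈ N then (1 : ℝ) else 0) := by
      refine Finset.sum_le_sum fun i hi => ?_
      have hiA : i ∈ A1 A V x := (Finset.mem_sdiff.1 hi).1
      by_cases hiN : i ∈ N
      · rw [if_pos hiN]
        have h2 : ∑ k ∈ H, Ms A V i k ≤ ∑ k ∈ BB V x, Ms A V i k :=
          Finset.sum_le_sum_of_subset_of_nonneg hH fun k _ _ => Ms_nonneg i k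
        have h3 := h.sum_Ms hiA
        have h4 := qq_nonneg (A := A) (V := V) i
        linarith
      · rw [if_neg hiN]
        refine le_of_eq (Finset.sum_eq_zero fun k hk => ?_)
        refine Ms_eq_zero hiA fun hl => hiN ?_
        rw [hNdef]
        unfold NN
        exact Finset.mem_biUnion.2 ⟨k, hk, hl⟩
    have h2 : ∑ i ∈ A1 A V x \ L, (if i ∈ N then (1 : ℝ) else 0) = ((N \ L).card : ℝ) := by
      rw [← Finset.sum_filter, Finset.sum_const, nsmul_eq_mul, mul_one]
      congr 2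
      ext i
      simp only [Finset.mem_filter, Finset.mem_sdiff]
      constructor
      · rintro ⟨⟨_, h3⟩, h4⟩; exact ⟨h4, h3⟩
      · rintro ⟨h3, h4⟩
        exact ⟨⟨NN_subset H h3, h4⟩, h3⟩
    linarith
  have hHH : ∑ k ∈ H, ((rs (g k) (V \ I) : ℝ) + ((x k : ℝ) - 1))
      ≤ ∑ k ∈ H, (ff A V x k + ((x k : ℝ) - 1)) + ((N \ L).card : ℝ) := by
    have h1 : ∑ k ∈ H, ((rs (g k) (V \ I) : ℝ) + ((x k : ℝ) - 1))
        ≤ ∑ k ∈ H, ((ff A V x k + ((x k : ℝ) - 1)) + ∑ i ∈ A1 A V x \ L, Ms A V i k) := by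
      refine Finset.sum_le_sum fun k hk => ?_
      have h2 := hg4 k hk
      have h3 := hHk k hk
      linarith
    have h5 : ∑ k ∈ H, ((ff A V x k + ((x k : ℝ) - 1)) + ∑ i ∈ A1 A V x \ L, Ms A V i k)
        = ∑ k ∈ H, (ff A V x k + ((x k : ℝ) - 1)) + ∑ k ∈ H, ∑ i ∈ A1 A V x \ L, Ms A V i k :=
      Finset.sum_add_distrib
    linarith
  have hsig : (sig A V x H : ℝ) - ((u : ℝ) - (SS A V x).card) = (N.card : ℝ) - m := by
    unfold sig
    rw [← hNdef]
    have h1 : (u : ℝ) = H.card + (SS A V x).card + m := by exact_mod_cast hm.symm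
    rw [h1]
    push_cast
    ring
  rw [hsig, ← hLN]
  linarith

lemma sig_insert {H : Finset ι} {k : ι} (hk : k ∉ H) :
    sig A V x H + 1 ≤ sig A V x (insert k H) ∧
      sig A V x (insert k H) ≤ sig A V x H + 1 + (leaves A V x k).card := by
  classical
  unfold sig NN
  have h1 : (insert k H).biUnion (leaves A V x) = leaves A V x k ∪ H.biUnion (leaves A V x) :=
    Finset.biUnion_insert
  have h2 : (H.biUnion (leaves A V x)).card
      ≤ (leaves A V x k ∪ H.biUnion (leaves A V x)).card :=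
    Finset.card_le_card Finset.subset_union_right
  have h3 := Finset.card_union_le (leaves A V x k) (H.biUnion (leaves A V x))
  rw [h1, Finset.card_insert_of_notMem hk]
  push_cast
  constructor <;> omega

lemma sig_mono {H H' : Finset ι} (h : H ⊆ H') : sig A V x H ≤ sig A V x H' := by
  classical
  unfold sig NN
  have h1 := Finset.card_le_card h
  have h2 := Finset.card_le_card (Finset.biUnion_subset_biUnion_of_subset_left (leaves A V x) h)
  omega

lemma sig_union_le (H H' : Finset ι) : sig A V x (H ∪ H') ≤ sig A V x H + sig A V x H' := by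
  classical
  unfold sig NN
  have h1 := Finset.card_union_le H H'
  have h2 : (H ∪ H').biUnion (leaves A V x)
      = H.biUnion (leaves A V x) ∪ H'.biUnion (leaves A V x) := Finset.union_biUnion
  have h3 := Finset.card_union_le (H.biUnion (leaves A V x)) (H'.biUnion (leaves A V x))
  rw [h2]
  omega

/-- every part of `A1` is a leaf of some hub: `σ(B) = |B| + |A1|` -/
lemma Ctx3.sig_BB (h : Ctx3 A Q u r V x) :
    sig A V x (BB V x) = (BB V x).card + (A1 A V x).card := by
  have h1 : NN A V x (BB V x) = A1 A V x := by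
    refine Finset.Subset.antisymm (NN_subset _) ?_
    intro i hi
    obtain ⟨g, hg, hg1, k, hk, hgk⟩ := h.exists_single hi
    unfold NN
    exact Finset.mem_biUnion.2 ⟨k, hk, mem_leaves.2 ⟨hi, g, hg, hg1, hgk⟩⟩
  unfold sig
  rw [h1]

end FRow

end H23FO
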