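import Pool.Agent.H23.FO.Avg

namespace H23FO
open Finset

set_option linter.unusedSectionVars false

variable {ι : Type*} [DecidableEq ι]

namespace FRow

private theorem explore_aux (A : FRow ι) {V : Finset ι} {x : ι → ℤ} {u : ℕ} {i : ι}
    {g0 : ι → ℕ} (d : ℕ) :
    ∀ (S : Finset ι) (g : ι → ι → ℕ) (inner : ℤ), u - S.card = d → S ⊆ V → i ∈ S → g i = g0 →
      (∀ j ∈ S, g j ∈ A.S j) → S.card ≤ u →
      (inner : ℝ) + ∑ j ∈ S, (rs (g j) (V \ S) : ℝ) ≤ A.MM V - A.MM (V \ S) →
      ∑ j ∈ S, x j - 1 ≤ inner →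
    ∃ (S : Finset ι) (g : ι → ι → ℕ) (inner : ℤ), S ⊆ V ∧ i ∈ S ∧ g i = g0 ∧
      (∀ j ∈ S, g j ∈ A.S j) ∧ S.card ≤ u ∧
      (inner : ℝ) + ∑ j ∈ S, (rs (g j) (V \ S) : ℝ) ≤ A.MM V - A.MM (V \ S) ∧
      ∑ j ∈ S, x j - 1 ≤ inner ∧
      (S.card = u ∨ ∀ k ∈ V \ S, ∑ j ∈ S, (g j k : ℤ) < x k) := by
  induction d using Nat.strong_induction_on with
  | _ d ih =>
    intro S g inner hd hSV hi hgi hg hc ht hx
    by_cases h1 : S.card = u
    · exact ⟨S, g, inner, hSV, hi, hgi, hg, hc, ht, hx, Or.inl h1⟩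
    by_cases h2 : ∀ k ∈ V \ S, ∑ j ∈ S, (g j k : ℤ) < x k
    · exact ⟨S, g, inner, hSV, hi, hgi, hg, hc, ht, hx, Or.inr h2⟩
    push Not at h2
    obtain ⟨k, hk, hxk⟩ := h2
    have hkV : k ∈ V := (Finset.mem_sdiff.1 hk).1
    have hkS : k ∉ S := (Finset.mem_sdiff.1 hk).2
    obtain ⟨g', hg', -, hmean⟩ := A.exists_min k (V \ insert k S)
    have hT : V \ insert k S = (V \ S).erase k := by
      ext a
      simp only [Finset.mem_sdiff, Finset.mem_insert, Finset.mem_erase]
      tauto
    have hcard : (insert k S).card = S.card + 1 := Finset.card_insert_of_notMem hkS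
    have hne : ∀ j ∈ S, j ≠ k := fun j hj h => hkS (h ▸ hj)
    have hrs : ∀ j ∈ S, (rs (g j) (V \ S) : ℝ) = rs (g j) (V \ insert k S) + (g j k : ℝ) := by
      intro j _
      rw [hT]
      unfold rs
      rw [← Finset.add_sum_erase (V \ S) _ hk]
      push_cast
      ring
    refine ih (u - (insert k S).card) (by omega) (insert k S) (Function.update g k g')
      (inner + ∑ j ∈ S, (g j k : ℤ)) rfl ?_ (Finset.mem_insert_of_mem hi) ?_ ?_ (by omega) ?_ ?_
    · exact Finset.insert_subset hkV hSV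
    · rw [Function.update_of_ne (hne i hi)]
      exact hgi
    · intro j hj
      rcases Finset.mem_insert.1 hj with h | h
      · rw [h, Function.update_self]
        exact hg'
      · rw [Function.update_of_ne (hne j h)]
        exact hg j h
    · rw [Finset.sum_insert hkS, Function.update_self]
      have e1 : ∑ j ∈ S, (rs (Function.update g k g' j) (V \ insert k S) : ℝ) =
          ∑ j ∈ S, (rs (g j) (V \ insert k S) : ℝ) :=
        Finset.sum_congr rfl fun j hj => by rw [Function.update_of_ne (hne j hj)]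
      have e2 : ∑ j ∈ S, (rs (g j) (V \ S) : ℝ) =
          ∑ j ∈ S, (rs (g j) (V \ insert k S) : ℝ) + ∑ j ∈ S, (g j k : ℝ) := by
        rw [← Finset.sum_add_distrib]
        exact Finset.sum_congr rfl hrs
      have e3 := A.MM_erase hk
      rw [← hT] at e3
      have e4 : A.Mr k (V \ insert k S) ≤ A.Mr k (V \ S) :=
        A.Mr_mono k (Finset.sdiff_subset_sdiff (le_refl _) (Finset.subset_insert _ _))
      rw [e1]
      push_cast
      rw [e2] at ht
      linarith
    · rw [Finset.sum_insert hkS]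
      linarith

/-- Exploration from the part `i` (with `x i ≤ 1`) with the row `g0`, which is minimal in `V`. -/
theorem explore (A : FRow ι) {V : Finset ι} {x : ι → ℤ} {u : ℕ} (hu : 1 ≤ u) {i : ι}
    (hi : i ∈ V) (hxi : x i ≤ 1) {g0 : ι → ℕ} (hg0 : g0 ∈ A.S i)
    (hmin : (rs g0 V : ℝ) ≤ A.Mr i V) :
    ∃ (S : Finset ι) (g : ι → ι → ℕ) (inner : ℤ), S ⊆ V ∧ i ∈ S ∧ g i = g0 ∧
      (∀ j ∈ S, g j ∈ A.S j) ∧ S.card ≤ u ∧
      (inner : ℝ) + ∑ j ∈ S, (rs (g j) (V \ S) : ℝ) ≤ A.MM V - A.MM (V \ S) ∧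
      ∑ j ∈ S, x j - 1 ≤ inner ∧
      (S.card = u ∨ ∀ k ∈ V \ S, ∑ j ∈ S, (g j k : ℤ) < x k) := by
  refine explore_aux A (u - ({i} : Finset ι).card) {i} (fun _ => g0) 0 rfl
    (Finset.singleton_subset_iff.2 hi) (Finset.mem_singleton_self i) rfl ?_ ?_ ?_ ?_
  · intro j hj
    rw [Finset.mem_singleton.1 hj]
    exact hg0
  · rw [Finset.card_singleton]
    exact hu
  · rw [Finset.sum_singleton]
    have e1 := A.MM_erase hi
    rw [← Finset.sdiff_singleton_eq_erase] at e1
    have e2 : (rs g0 (V \ {i}) : ℝ) ≤ rs g0 V := by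
      exact_mod_cast rs_mono g0 Finset.sdiff_subset
    push_cast
    linarith
  · rw [Finset.sum_singleton]
    linarith

/-- Validity for minimal rows. -/
private theorem half_T3 (A : FRow ι) {Q u : ℕ} {r : ℤ} {V : Finset ι} {x : ι → ℤ}
    (h : A.Valid (Q + 1) u r V x) {I : Finset ι} (hI : I ⊆ V) (hc : I.card = u)
    (g : ι → ι → ℕ) (hg : ∀ i ∈ I, g i ∈ A.S i) :
    nn V x r - ∑ i ∈ I, x i ≤ ∑ i ∈ I, (rs (g i) V : ℤ) := by
  have h1 := h.2 I hI hc g hg
  have h2 : ∑ i ∈ I, (rs (g i) (V \ I) : ℤ) ≤ ∑ i ∈ I, (rs (g i) V : ℤ) :=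
    Finset.sum_le_sum fun i _ => by exact_mod_cast rs_mono (g i) Finset.sdiff_subset
  unfold nn
  linarith

private theorem half_sum_sub_one (T : Finset ι) (y : ι → ℤ) :
    ∑ k ∈ T, (y k - 1) = ∑ k ∈ T, y k - T.card := by
  rw [Finset.sum_sub_distrib, Finset.sum_const, nsmul_eq_mul, mul_one]

private theorem half_sum_ge {V : Finset ι} {x : ι → ℤ} (hx : ∀ k ∈ V, 1 ≤ x k) :
    (V.card : ℤ) ≤ ∑ k ∈ V, x k := by
  have := Finset.sum_le_sum hx
  rw [Finset.sum_const, nsmul_eq_mul, mul_one] at this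
  exact this

/-- a lower bound from (T3) for `x ≥ 1`: `R + δ ≤ 2|M|` (`δ = R - r`, `R = Q + 1`). -/
theorem T3_bound (A : FRow ι) {Q u : ℕ} {r : ℤ} {V : Finset ι} {x : ι → ℤ}
    (hr : r ≤ Q) (h : A.Valid (Q + 1) u r V x) (hx : ∀ k ∈ V, 1 ≤ x k) :
    2 * ((Q : ℝ) + 1) - r ≤ 2 * A.MM V := by
  choose g hg hmin hmean using fun k => A.exists_min k V
  set a : ι → ℤ := fun k => (rs (g k) V : ℤ) + x k - 1 with ha
  have hcard := h.1
  have hne : (Finset.powersetCard u V).Nonempty :=
    Finset.powersetCard_nonempty.2 (by omega)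
  obtain ⟨I, hI, hImin⟩ := Finset.exists_min_image (Finset.powersetCard u V)
    (fun I => ∑ i ∈ I, a i) hne
  rw [Finset.mem_powersetCard] at hI
  obtain ⟨hIV, hIc⟩ := hI
  have hT3 := half_T3 A h hIV hIc g fun i _ => hg i
  have hsumI : ∑ i ∈ I, a i = ∑ i ∈ I, (rs (g i) V : ℤ) + ∑ i ∈ I, x i - u := by
    simp only [ha]
    rw [Finset.sum_sub_distrib, Finset.sum_add_distrib, Finset.sum_const, hIc]
    simp
  have hxV := half_sum_ge hx
  rw [hcard] at hxV
  push_cast at hxV
  have hnn : nn V x r = ∑ k ∈ V, x k - r := rfl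
  have hpos : 1 ≤ ∑ i ∈ I, a i := by
    rw [hsumI]
    linarith
  obtain ⟨j, hj, hj1⟩ : ∃ j ∈ I, 1 ≤ a j := by
    by_contra hcon
    push Not at hcon
    have : ∑ i ∈ I, a i ≤ ∑ i ∈ I, (0 : ℤ) :=
      Finset.sum_le_sum fun i hi => by linarith [hcon i hi]
    rw [Finset.sum_const_zero] at this
    linarith
  have hout : ∀ k ∈ V \ I, 1 ≤ a k := by
    intro k hk
    have hkI : k ∉ I := (Finset.mem_sdiff.1 hk).2
    have hkV : k ∈ V := (Finset.mem_sdiff.1 hk).1
    have hke : k ∉ I.erase j := fun h' => hkI (Finset.mem_of_mem_erase h')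
    have hm : insert k (I.erase j) ∈ Finset.powersetCard u V := by
      rw [Finset.mem_powersetCard]
      refine ⟨Finset.insert_subset hkV ((Finset.erase_subset _ _).trans hIV), ?_⟩
      rw [Finset.card_insert_of_notMem hke, Finset.card_erase_of_mem hj, hIc]
      have : 0 < I.card := Finset.card_pos.2 ⟨j, hj⟩
      omega
    have h1 : ∑ i ∈ I, a i ≤ ∑ i ∈ insert k (I.erase j), a i := hImin _ hm
    rw [Finset.sum_insert hke] at h1
    have h2 := Finset.add_sum_erase I a hj
    linarith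
  have hsumout : ((Q : ℤ) + 1) ≤ ∑ k ∈ V \ I, a k := by
    have h1 := Finset.sum_le_sum hout
    rw [Finset.sum_const, nsmul_eq_mul, mul_one, Finset.card_sdiff_of_subset hIV, hIc, hcard] at h1
    have : ((u + (Q + 1) - u : ℕ) : ℤ) = Q + 1 := by
      rw [Nat.add_sub_cancel_left]
      push_cast
      ring
    rw [this] at h1
    exact h1
  have hsumV : ∑ k ∈ V, a k = ∑ k ∈ V, (rs (g k) V : ℤ) + ∑ k ∈ V, x k - (u + (Q + 1)) := by
    simp only [ha]
    rw [Finset.sum_sub_distrib, Finset.sum_add_distrib, Finset.sum_const, hcard]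
    simp
  have hsplit : ∑ k ∈ V \ I, a k + ∑ k ∈ I, a k = ∑ k ∈ V, a k := Finset.sum_sdiff hIV
  have hD : 2 * ((Q : ℤ) + 1) - r ≤ ∑ k ∈ V, (rs (g k) V : ℤ) := by linarith
  have hDr : 2 * ((Q : ℝ) + 1) - r ≤ ∑ k ∈ V, (rs (g k) V : ℝ) := by exact_mod_cast hD
  rw [A.two_MM]
  exact hDr.trans (Finset.sum_le_sum fun k _ => hmean k)

/-- The case `u = 1`. -/
theorem one_bound (A : FRow ι) {Q : ℕ} {r : ℤ} {V : Finset ι} {x : ι → ℤ}
    (h : A.Valid (Q + 1) 1 r V x) :
    (Q : ℝ) * nn V x r - r ≤ 2 * A.MM V - nn V x r := by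
  have h1 : ∀ i ∈ V, (nn V x r : ℝ) - x i ≤ A.Mr i V := by
    intro i hi
    rw [A.Mr_eq]
    refine A.le_mean i _ _ fun g hg => ?_
    have := half_T3 A h (Finset.singleton_subset_iff.2 hi) (Finset.card_singleton i)
      (fun _ => g) (by
        intro j hj
        rw [Finset.mem_singleton.1 hj]
        exact hg)
    rw [Finset.sum_singleton, Finset.sum_singleton] at this
    exact_mod_cast this
  have h2 := Finset.sum_le_sum h1
  rw [← A.two_MM, Finset.sum_sub_distrib, Finset.sum_const, h.1] at h2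
  have h3 : (nn V x r : ℝ) = ∑ k ∈ V, (x k : ℝ) - r := by
    unfold nn
    push_cast
    ring
  rw [nsmul_eq_mul] at h2
  push_cast at h2
  have h4 : ∑ k ∈ V, (x k : ℝ) = nn V x r + r := by linarith
  rw [h4] at h2
  linarith

/-- **Half bound.** -/
theorem half_bound (A : FRow ι) {Q : ℕ} (hQ : 2 ≤ Q) :
    ∀ u : ℕ, 1 ≤ u → ∀ (r : ℤ) (V : Finset ι) (x : ι → ℤ), r ≤ Q → A.Valid (Q + 1) u r V x →
      (∀ k ∈ V, 1 ≤ x k) → 2 * nn V x r ≤ 2 * u + Q →
      2 * (Q : ℝ) - r ≤ 2 * (2 * A.MM V - nn V x r) := by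
  intro u
  induction u using Nat.strong_induction_on with
  | _ u ih =>
    intro hu r V x hr h hx hn
    have hxV := half_sum_ge hx
    have hcard := h.1
    rw [hcard] at hxV
    push_cast at hxV
    have hnn : nn V x r = ∑ k ∈ V, x k - r := rfl
    have hQR : (2 : ℝ) ≤ Q := by exact_mod_cast hQ
    have hrR : (r : ℝ) ≤ Q := by exact_mod_cast hr
    rcases Nat.eq_or_lt_of_le hu with h1 | h1
    · -- `u = 1`
      subst h1
      have h2 := one_bound A h
      have h3 : (2 : ℤ) ≤ nn V x r := by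
        push_cast at hxV
        linarith
      have h4 : (2 : ℝ) ≤ nn V x r := by exact_mod_cast h3
      nlinarith
    -- `u ≥ 2`
    have hT3 := T3_bound A hr h hx
    set n : ℤ := nn V x r with hndef
    rcases le_or_gt (2 * (∑ k ∈ V, x k - (Q + 1))) (r + 1) with hA | hB
    · -- small `u + Z`
      have hA' : 2 * ((n : ℝ) + r - (Q + 1)) ≤ r + 1 := by
        have : 2 * (n + r - (Q + 1)) ≤ r + 1 := by linarith
        exact_mod_cast this
      linarith
    -- the part `i`
    have hAset : u ≤ (V.filter fun k => x k = 1).card := by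
      have hsplit := Finset.card_filter_add_card_filter_not (s := V) (fun k => x k = 1)
      have h2 : ((V.filter fun k => ¬ x k = 1).card : ℤ) ≤ ∑ k ∈ V, (x k - 1) := by
        rw [← Finset.sum_filter_add_sum_filter_not V (fun k => x k = 1)]
        have e1 : 0 ≤ ∑ k ∈ V.filter (fun k => x k = 1), (x k - 1) :=
          Finset.sum_nonneg fun k hk => by
            rw [(Finset.mem_filter.1 hk).2]
            norm_num
        have e2 : ((V.filter fun k => ¬ x k = 1).card : ℤ) ≤
            ∑ k ∈ V.filter (fun k => ¬ x k = 1), (x k - 1) := by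
          have : ∀ k ∈ V.filter (fun k => ¬ x k = 1), (1 : ℤ) ≤ x k - 1 := by
            intro k hk
            have h3 := Finset.mem_filter.1 hk
            have h4 := hx k h3.1
            have h5 := h3.2
            omega
          have h6 := Finset.sum_le_sum this
          rw [Finset.sum_const, nsmul_eq_mul, mul_one] at h6
          exact h6
        linarith
      rw [Finset.sum_sub_distrib, Finset.sum_const, hcard] at h2
      push_cast at h2
      rw [nsmul_eq_mul] at h2
      push_cast at h2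
      have h3 : ((V.filter fun k => x k = 1).card : ℤ) +
          ((V.filter fun k => ¬ x k = 1).card : ℤ) = u + (Q + 1) := by
        exact_mod_cast hsplit.trans hcard
      have h4 : (u : ℤ) ≤ ((V.filter fun k => x k = 1).card : ℤ) := by linarith
      exact_mod_cast h4
    obtain ⟨I, hIs, hIc⟩ := Finset.exists_subset_card_eq hAset
    have hIV : I ⊆ V := hIs.trans (Finset.filter_subset _ _)
    have hI1 : ∀ i ∈ I, x i = 1 := fun i hi => (Finset.mem_filter.1 (hIs hi)).2
    choose g0 hg0 hmin0 hmean0 using fun k => A.exists_min k V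
    have hTI := half_T3 A h hIV hIc g0 fun i _ => hg0 i
    have hxI : ∑ i ∈ I, x i = u := by
      rw [Finset.sum_congr rfl hI1, Finset.sum_const, hIc]
      simp
    obtain ⟨i, hi, hi1⟩ : ∃ i ∈ I, 1 ≤ rs (g0 i) V := by
      by_contra hcon
      push Not at hcon
      have h2 : ∑ i ∈ I, (rs (g0 i) V : ℤ) = 0 :=
        Finset.sum_eq_zero fun i hi => by
          have := hcon i hi
          have h3 : rs (g0 i) V = 0 := by omega
          rw [h3]
          rfl
      rw [h2, hxI] at hTI
      linarith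
    obtain ⟨S, g, inner, hSV, hiS, hgi, hg, hSc, htouch, hinner, halt⟩ :=
      explore A hu (hIV hi) (hI1 i hi).le (hg0 i) (hmean0 i)
    have hxS : (S.card : ℤ) ≤ ∑ j ∈ S, x j := half_sum_ge fun j hj => hx j (hSV hj)
    have hinR : ((∑ j ∈ S, x j : ℤ) : ℝ) - 1 ≤ inner := by exact_mod_cast hinner
    rcases halt with hSu | hst
    · -- (a)
      have h2 := h.2 S hSV hSu g hg
      have h2' : (n : ℝ) - ((∑ j ∈ S, x j : ℤ) : ℝ) ≤ ∑ j ∈ S, (rs (g j) (V \ S) : ℝ) := by
        exact_mod_cast h2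
      have h3 := A.MM_nonneg (V \ S)
      have h4 : (n : ℝ) - 1 ≤ A.MM V := by linarith
      have hB' : (r : ℝ) + 2 ≤ 2 * ((n : ℝ) + r - (Q + 1)) := by
        have : r + 2 ≤ 2 * (n + r - (Q + 1)) := by
          have : r + 1 < 2 * (n + r - (Q + 1)) := by linarith
          omega
        exact_mod_cast this
      linarith
    · -- (b)
      by_cases hSu : S.card = u
      · have h2 := h.2 S hSV hSu g hg
        have h2' : (n : ℝ) - ((∑ j ∈ S, x j : ℤ) : ℝ) ≤ ∑ j ∈ S, (rs (g j) (V \ S) : ℝ) := by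
          exact_mod_cast h2
        have h3 := A.MM_nonneg (V \ S)
        have h4 : (n : ℝ) - 1 ≤ A.MM V := by linarith
        have hB' : (r : ℝ) + 2 ≤ 2 * ((n : ℝ) + r - (Q + 1)) := by
          have : r + 2 ≤ 2 * (n + r - (Q + 1)) := by
            have : r + 1 < 2 * (n + r - (Q + 1)) := by linarith
            omega
          exact_mod_cast this
        linarith
      have hSpos : 0 < S.card := Finset.card_pos.2 ⟨i, hiS⟩
      have hres := h.restrict hSV hSc g hg
      have hrn := restrict_n hSV x g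
      set x' : ι → ℤ := fun k => x k - ∑ j ∈ S, (g j k : ℤ) with hx'
      have hx'1 : ∀ k ∈ V \ S, 1 ≤ x' k := by
        intro k hk
        have := hst k hk
        simp only [hx']
        omega
      have hx'le : ∑ k ∈ V \ S, (x' k - 1) ≤ ∑ k ∈ V, (x k - 1) := by
        have e1 : ∑ k ∈ V \ S, (x' k - 1) ≤ ∑ k ∈ V \ S, (x k - 1) := by
          refine Finset.sum_le_sum fun k _ => ?_
          simp only [hx']
          have : (0 : ℤ) ≤ ∑ j ∈ S, (g j k : ℤ) :=
            Finset.sum_nonneg fun j _ => Int.natCast_nonneg _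
          linarith
        have e2 : ∑ k ∈ V \ S, (x k - 1) ≤ ∑ k ∈ V, (x k - 1) := by
          refine Finset.sum_le_sum_of_subset_of_nonneg Finset.sdiff_subset fun k hk _ => ?_
          have := hx k hk
          linarith
        exact e1.trans e2
      have hcardS : (V \ S).card = (u - S.card) + (Q + 1) := hres.1
      rw [half_sum_sub_one, half_sum_sub_one, hcardS, hcard] at hx'le
      push_cast [Nat.cast_sub hSc] at hx'le
      have hn' : nn (V \ S) x' r = n - ∑ k ∈ S, x k - ∑ j ∈ S, (rs (g j) (V \ S) : ℤ) := by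
        unfold nn
        rw [hrn, hndef]
        unfold nn
        ring
      have hb := ih (u - S.card) (by omega) (by omega) r (V \ S) x' hr hres hx'1 (by
        unfold nn
        push_cast [Nat.cast_sub hSc]
        linarith)
      rw [hn'] at hb
      push_cast at hb
      push_cast at hinR
      -- `x(S) + out ≥ 2`
      have hout : (2 : ℝ) ≤ ∑ j ∈ S, (x j : ℝ) + ∑ j ∈ S, (rs (g j) (V \ S) : ℝ) := by
        have hint : (2 : ℤ) ≤ ∑ j ∈ S, x j + ∑ j ∈ S, (rs (g j) (V \ S) : ℤ) := by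
          rcases Nat.lt_or_ge 1 S.card with h2 | h2
          · have h3 : (0 : ℤ) ≤ ∑ j ∈ S, (rs (g j) (V \ S) : ℤ) :=
              Finset.sum_nonneg fun j _ => Int.natCast_nonneg _
            have h4 : (2 : ℤ) ≤ S.card := by exact_mod_cast h2
            linarith
          · have h3 : S.card = 1 := by omega
            obtain ⟨j, hj⟩ := Finset.card_eq_one.1 h3
            have hij : i = j := by
              rw [hj] at hiS
              exact Finset.mem_singleton.1 hiS
            subst hij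
            rw [hj, Finset.sum_singleton, Finset.sum_singleton, hgi, hI1 i hi]
            have h5 : rs (g0 i) (V \ {i}) = rs (g0 i) V := by
              have h6 := rs_sdiff (g0 i) (Finset.singleton_subset_iff.2 (hIV hi))
              have h7 : rs (g0 i) {i} = 0 := by
                unfold rs
                rw [Finset.sum_singleton]
                exact A.diag i _ (hg0 i)
              omega
            rw [h5]
            have : (1 : ℤ) ≤ (rs (g0 i) V : ℤ) := by exact_mod_cast hi1
            linarith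
        exact_mod_cast hint
      linarith

end FRow

end H23FO
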