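import Mathlib

namespace H23FO
open Finset

variable {ι : Type*} [DecidableEq ι]

/-- crossing a level: for a set function `σ` on subsets of `B` with `σ ∅ = 0` and increments
between `1` and `1 + 2 z_k`, and a level `1 ≤ U ≤ σ(B)`, there are `H' ⊆ B`, `k ∈ B \ H'`
with `σ H' < U ≤ σ (insert k H')`. -/
theorem crossing (B : Finset ι) (σ : Finset ι → ℤ) (h0 : σ ∅ = 0) {U : ℤ} (hU : 1 ≤ U)
    (hB : U ≤ σ B) : ∃ H' ⊆ B, ∃ k ∈ B, k ∉ H' ∧ σ H' < U ∧ U ≤ σ (insert k H') := by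
  have hne : (B.powerset.filter fun H => U ≤ σ H).Nonempty :=
    ⟨B, by simp [hB]⟩
  obtain ⟨H, hH, hmin⟩ := Finset.exists_min_image _ (fun H => H.card) hne
  simp only [Finset.mem_filter, Finset.mem_powerset] at hH hmin
  obtain ⟨hHB, hHU⟩ := hH
  have hHne : H.Nonempty := by
    rw [Finset.nonempty_iff_ne_empty]
    intro h
    rw [h, h0] at hHU
    omega
  obtain ⟨k, hk⟩ := hHne
  refine ⟨H.erase k, (Finset.erase_subset _ _).trans hHB, k, hHB hk, Finset.notMem_erase _ _,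
    ?_, ?_⟩
  · by_contra hcon
    push Not at hcon
    have h1 := hmin (H.erase k) ⟨(Finset.erase_subset _ _).trans hHB, hcon⟩
    have h2 := Finset.card_erase_lt_of_mem hk
    omega
  · rw [Finset.insert_erase hk]
    exact hHU

/-- one group inside `C ⊆ B` -/
private theorem twoG_one (B C : Finset ι) (hCB : C ⊆ B) (σ : Finset ι → ℤ) (z : ι → ℤ) {U : ℤ}
    (hU : 1 ≤ U) (h0 : σ ∅ = 0)
    (hins : ∀ H ⊆ B, ∀ k ∈ B, k ∉ H → σ H + 1 ≤ σ (insert k H) ∧
      σ (insert k H) ≤ σ H + 1 + 2 * z k)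
    (hcard : ∀ H ⊆ B, (H.card : ℤ) ≤ σ H) (hC : U ≤ σ C) :
    ∃ H2 ⊆ C, (H2.card : ℤ) ≤ U ∧ ∃ k ∈ B, |σ H2 - U| ≤ z k := by
  obtain ⟨H, hH, k, hk, hkH, h1, h2⟩ := crossing C σ h0 hU hC
  have h3 := (hins H (hH.trans hCB) k (hCB hk) hkH).2
  have h4 := hcard H (hH.trans hCB)
  by_cases ha : U - σ H ≤ z k
  · refine ⟨H, hH, by omega, k, hCB hk, ?_⟩
    rw [abs_sub_comm, abs_of_nonneg (by omega)]
    exact ha
  · refine ⟨insert k H, Finset.insert_subset hk hH, ?_, k, hCB hk, ?_⟩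
    · rw [Finset.card_insert_of_notMem hkH]
      push_cast
      omega
    · rw [abs_of_nonneg (by omega)]
      omega

/-- **(3h) two groups**. -/
theorem two_groups (B : Finset ι) (σ : Finset ι → ℤ) (z : ι → ℤ) {U R : ℤ}
    (hU : 1 ≤ U) (hR : U ≤ R) (h0 : σ ∅ = 0) (hz : ∀ k ∈ B, 1 ≤ z k)
    (hins : ∀ H ⊆ B, ∀ k ∈ B, k ∉ H → σ H + 1 ≤ σ (insert k H) ∧
      σ (insert k H) ≤ σ H + 1 + 2 * z k)
    (hcard : ∀ H ⊆ B, (H.card : ℤ) ≤ σ H)
    (hsub : ∀ H ⊆ B, U + R ≤ σ H + σ (B \ H)) :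
    ∃ H1 H2 : Finset ι, H1 ⊆ B ∧ H2 ⊆ B ∧ Disjoint H1 H2 ∧ (H1.card : ℤ) ≤ U ∧
      (H2.card : ℤ) ≤ U ∧ |σ H1 - U| + |σ H2 - U| ≤ 2 + 2 * ∑ k ∈ B, (z k - 1) := by
  have hsum : ∀ k ∈ B, z k - 1 ≤ ∑ k ∈ B, (z k - 1) := fun k hk =>
    Finset.single_le_sum (f := fun k => z k - 1) (fun i hi => by have := hz i hi; omega) hk
  have hB : U ≤ σ B := by
    have := hsub ∅ (Finset.empty_subset _)
    rw [h0, Finset.sdiff_empty] at this
    omega
  obtain ⟨H, hH, k, hk, hkH, h1, h2⟩ := crossing B σ h0 hU hB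
  have h3 := (hins H hH k hk hkH).2
  have h4 := hcard H hH
  have h5 := hsum k hk
  by_cases ha : U - σ H ≤ z k
  · have h6 := hsub H hH
    obtain ⟨H2, hH2, hc2, k', hk', he⟩ := twoG_one B (B \ H) Finset.sdiff_subset σ z hU h0 hins
      hcard (by omega)
    have h7 := hsum k' hk'
    refine ⟨H, H2, hH, hH2.trans Finset.sdiff_subset, ?_, by omega, hc2, ?_⟩
    · exact Finset.disjoint_of_subset_right hH2 Finset.disjoint_sdiff
    · rw [abs_sub_comm (σ H) U, abs_of_nonneg (by omega : 0 ≤ U - σ H)]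
      omega
  · have hHk : insert k H ⊆ B := Finset.insert_subset hk hH
    have h6 := hsub (insert k H) hHk
    have hcH : ((insert k H).card : ℤ) ≤ U := by
      rw [Finset.card_insert_of_notMem hkH]
      push_cast
      omega
    by_cases hlt : U ≤ σ (B \ insert k H)
    · obtain ⟨H2, hH2, hc2, k', hk', he⟩ := twoG_one B (B \ insert k H) Finset.sdiff_subset σ z
        hU h0 hins hcard hlt
      have h7 := hsum k' hk'
      refine ⟨insert k H, H2, hHk, hH2.trans Finset.sdiff_subset, ?_, hcH, hc2, ?_⟩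
      · exact Finset.disjoint_of_subset_right hH2 Finset.disjoint_sdiff
      · rw [abs_of_nonneg (by omega : 0 ≤ σ (insert k H) - U)]
        omega
    · push Not at hlt
      have h8 := hcard (B \ insert k H) Finset.sdiff_subset
      refine ⟨insert k H, B \ insert k H, hHk, Finset.sdiff_subset, Finset.disjoint_sdiff, hcH,
        by omega, ?_⟩
      rw [abs_of_nonneg (by omega : 0 ≤ σ (insert k H) - U),
        abs_sub_comm (σ (B \ insert k H)) U,
        abs_of_nonneg (by omega : 0 ≤ U - σ (B \ insert k H))]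
      omega

end H23FO
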