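import Pool.Agent.H23.FO.CaseD
import Pool.Agent.H23.FO.Groups
import Pool.Agent.H23.FO.TwoG
import Pool.Agent.H23.FO.Half

namespace H23FO
open Finset

set_option linter.unusedSectionVars false

variable {ι : Type*} [DecidableEq ι]

namespace FRow

variable {A : FRow ι} {Q u : ℕ} {r : ℤ} {V : Finset ι} {x : ι → ℤ}

private lemma fin_sum_BB (h : Ctx3 A Q u r V x) :
    ∑ k ∈ BB V x, (x k - 1) = nn V x r - u - (Q + 1 - r) := by
  classical
  have hcard := h.val.1
  have hV := h.AA_union_BB
  have h1 : ∑ k ∈ V, (x k - 1) = ∑ k ∈ AA V x, (x k - 1) + ∑ k ∈ BB V x, (x k - 1) := by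
    conv_lhs => rw [← hV]
    exact Finset.sum_union disjoint_AA_BB
  have h2 : ∑ k ∈ AA V x, (x k - 1) = 0 := by
    refine Finset.sum_eq_zero fun k hk => ?_
    rw [x_of_mem_AA hk]; ring
  have h3 : ∑ k ∈ V, (x k - 1) = ∑ k ∈ V, x k - (V.card : ℤ) := by
    rw [Finset.sum_sub_distrib, Finset.sum_const, nsmul_eq_mul, mul_one]
  rw [hcard] at h3
  push_cast at h3
  unfold nn
  linarith

/-- the case `|A| ≥ u` is impossible. -/
theorem Ctx3.case_e (h : Ctx3 A Q u r V x) (huR : u ≤ Q + 1) (hA : u ≤ (AA V x).card) : False := by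
  classical
  by_cases hbig : ∃ k ∈ BB V x, u * th Q u V x r ≤ x k
  · obtain ⟨k, hk, hx⟩ := hbig
    exact h.big_hub hA hk hx
  · push Not at hbig
    have hleaf : ∀ k ∈ BB V x, ((leaves A V x k).card : ℤ) ≤ 2 * (x k - 1) := by
      intro k hk
      rcases h.star hk with h1 | h1
      · exact h1
      · exact absurd h1 (not_le.2 (hbig k hk))
    have hcard := h.val.1
    have hs := h.three_c
    have hVc : V.card = (AA V x).card + (BB V x).card := by
      conv_lhs => rw [← h.AA_union_BB]
      exact Finset.card_union_of_disjoint disjoint_AA_BB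
    have hAc : (AA V x).card = (SS A V x).card + (A1 A V x).card := by
      rw [← SS_union_A1 (A := A)]
      exact Finset.card_union_of_disjoint disjoint_SS_A1
    have hsigB := h.sig_BB
    have hxB : ∀ k ∈ BB V x, 2 ≤ x k := by
      intro k hk
      unfold BB at hk
      exact (Finset.mem_filter.1 hk).2
    obtain ⟨H1, H2, hH1, hH2, hdis, hc1, hc2, herr⟩ :=
      two_groups (BB V x) (sig A V x) (fun k => x k - 1) (U := (u : ℤ) - (SS A V x).card)
        (R := (Q : ℤ) + 1) (by omega) (by omega) (by unfold sig NN; simp)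
        (by intro k hk; have := hxB k hk; omega)
        (by
          intro H _ k hk hkH
          have h1 := sig_insert (A := A) (V := V) (x := x) hkH
          have h2 := hleaf k hk
          refine ⟨h1.1, ?_⟩
          have h3 := h1.2
          linarith)
        (by
          intro H _
          unfold sig
          have : (0 : ℤ) ≤ ((NN A V x H).card : ℤ) := Int.natCast_nonneg _
          linarith)
        (by
          intro H hH
          have h1 := sig_union_le (A := A) (V := V) (x := x) H (BB V x \ H)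
          rw [Finset.union_sdiff_of_subset hH, hsigB] at h1
          omega)
    have hg1 := h.groups hA hH1 (by omega)
    have hg2 := h.groups hA hH2 (by omega)
    have hZ := fin_sum_BB h
    have hnle := h.n_le hA
    have hr := h.hr
    -- the sum over the two groups
    have hsum : ∑ k ∈ H1, (ff A V x k + (x k - 1)) + ∑ k ∈ H2, (ff A V x k + (x k - 1))
        ≤ ∑ k ∈ BB V x, (ff A V x k + ((x k : ℝ) - 1)) := by
      rw [← Finset.sum_union hdis]
      refine Finset.sum_le_sum_of_subset_of_nonneg (Finset.union_subset hH1 hH2) ?_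
      intro k hk _
      have h1 := ff_nonneg (A := A) (V := V) (x := x) k
      have h2 : (2 : ℝ) ≤ x k := by exact_mod_cast hxB k hk
      linarith
    have hZr : ∑ k ∈ BB V x, ((x k : ℝ) - 1) = (nn V x r : ℝ) - u - (Q + 1 - r) := by
      exact_mod_cast hZ
    have hsum' : ∑ k ∈ BB V x, (ff A V x k + ((x k : ℝ) - 1))
        = ∑ k ∈ BB V x, ff A V x k + ((nn V x r : ℝ) - u - (Q + 1 - r)) := by
      rw [Finset.sum_add_distrib, hZr]
    rw [hsum'] at hsum
    have hzz : ∑ k ∈ BB V x, ((x k - 1) - 1) = nn V x r - u - (Q + 1 - r) - (BB V x).card := by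
      rw [Finset.sum_sub_distrib, hZ, Finset.sum_const, nsmul_eq_mul, mul_one]
    have herr' : |(sig A V x H1 : ℝ) - ((u : ℝ) - (SS A V x).card)|
        + |(sig A V x H2 : ℝ) - ((u : ℝ) - (SS A V x).card)|
        ≤ 2 + 2 * ((nn V x r : ℝ) - u - (Q + 1 - r) - (BB V x).card) := by
      rw [hzz] at herr
      exact_mod_cast herr
    refine h.goal hA ?_
    have hwr : (V.card : ℝ) = u + (Q + 1) := by exact_mod_cast hcard
    have hnr : (nn V x r : ℝ) + (SS A V x).card ≤ 2 * u := by exact_mod_cast hnle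
    have hrr : (r : ℝ) ≤ Q := by exact_mod_cast hr
    have hur : (u : ℝ) ≤ Q + 1 := by exact_mod_cast huR
    rw [hwr]
    linarith

/-- the special case `u = 2`, `Q = 2`, `n = 3`. -/
theorem Ctx.special (h : Ctx A 2 2 r V x) (hn : nn V x r = 3) : False := by
  classical
  have hcard : V.card = 5 := by
    have := h.val.1
    omega
  have hx1 : ∀ k ∈ V, 1 ≤ x k := fun k hk => h.x_pos h.u_pos hk
  have hsumx : ∑ k ∈ V, x k = 3 + r := by
    unfold nn at hn
    linarith
  have hr := h.hr
  push_cast at hr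
  have hsum1 : ∑ k ∈ V, (x k - 1) = r - 2 := by
    rw [Finset.sum_sub_distrib, hsumx, Finset.sum_const, hcard]
    norm_num
    ring
  have hxone : ∀ k ∈ V, x k = 1 := by
    have h0 : ∀ k ∈ V, 0 ≤ x k - 1 := fun k hk => by have := hx1 k hk; omega
    have hnn : 0 ≤ ∑ k ∈ V, (x k - 1) := Finset.sum_nonneg h0
    have hz : ∑ k ∈ V, (x k - 1) = 0 := by omega
    intro k hk
    have := (Finset.sum_eq_zero_iff_of_nonneg h0).1 hz k hk
    omega
  have hth : th 2 2 V x r = 1 / 2 := by
    unfold th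
    rw [hn]
    norm_num
  have hMM := h.MM_le
  rw [hth] at hMM
  have h2MM := A.two_MM V
  have hMr : ∑ k ∈ V, A.Mr k V ≤ 4 := by
    rw [← h2MM]
    norm_num at hMM
    linarith
  -- T3 for pairs
  have hT3 : ∀ i ∈ V, ∀ k ∈ V, i ≠ k → ∀ g ∈ A.S i, ∀ g' ∈ A.S k,
      1 ≤ rs g (V \ {i, k}) + rs g' (V \ {i, k}) := by
    intro i hi k hk hik g hg g' hg'
    have hI : ({i, k} : Finset ι) ⊆ V := by
      intro a ha
      rcases Finset.mem_insert.1 ha with rfl | ha
      · exact hi
      · rw [Finset.mem_singleton.1 ha]; exact hk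
    have h1 := h.T3 hI (Finset.card_pair hik) (fun j => if j = i then g else g') (by
      intro j hj
      rcases Finset.mem_insert.1 hj with rfl | hj
      · simp only [if_true]; exact hg
      · have hjk := Finset.mem_singleton.1 hj
        subst hjk
        simp only [if_neg (Ne.symm hik)]
        exact hg')
    rw [Finset.sum_pair hik, hn, hxone i hi, hxone k hk] at h1
    simp only [if_true, if_neg (Ne.symm hik)] at h1
    push_cast at h1
    omega
  -- minimal rows
  choose g hg hmin hmean using fun k => A.exists_min k V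
  have hle : ∀ (T : Finset ι) (gg : ι → ℕ), rs gg (V \ T) ≤ rs gg V := fun T gg =>
    rs_mono gg Finset.sdiff_subset
  have hpair : ∀ i ∈ V, ∀ k ∈ V, i ≠ k → 1 ≤ rs (g i) V + rs (g k) V := by
    intro i hi k hk hik
    have h1 := hT3 i hi k hk hik (g i) (hg i) (g k) (hg k)
    have h2 := hle {i, k} (g i)
    have h3 := hle {i, k} (g k)
    omega
  -- there is a part with an empty row
  have hex : ∃ k0 ∈ V, rs (g k0) V = 0 := by
    by_contra hcon
    push Not at hcon
    have h1 : ∑ k ∈ V, (1 : ℝ) ≤ ∑ k ∈ V, A.Mr k V := by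
      refine Finset.sum_le_sum fun k hk => ?_
      have h2 : 1 ≤ rs (g k) V := Nat.one_le_iff_ne_zero.2 (hcon k hk)
      have h3 : (1 : ℝ) ≤ (rs (g k) V : ℝ) := by exact_mod_cast h2
      exact h3.trans (hmean k)
    rw [Finset.sum_const, hcard, nsmul_eq_mul] at h1
    norm_num at h1
    linarith
  obtain ⟨k0, hk0, hk00⟩ := hex
  have hoth : ∀ k ∈ V.erase k0, (1 : ℝ) ≤ A.Mr k V := by
    intro k hk
    have hk' := Finset.mem_erase.1 hk
    have h1 := hpair k hk'.2 k0 hk0 hk'.1
    have h2 : 1 ≤ rs (g k) V := by omega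
    have h3 : (1 : ℝ) ≤ (rs (g k) V : ℝ) := by exact_mod_cast h2
    exact h3.trans (hmean k)
  have hcard4 : (V.erase k0).card = 4 := by
    rw [Finset.card_erase_of_mem hk0, hcard]
  have hsplit : ∑ k ∈ V, A.Mr k V = A.Mr k0 V + ∑ k ∈ V.erase k0, A.Mr k V :=
    (Finset.add_sum_erase V (fun k => A.Mr k V) hk0).symm
  have hsub0 : ∀ k ∈ V.erase k0, 0 ≤ A.Mr k V - 1 := fun k hk => by
    have := hoth k hk; linarith
  have hsum4 : ∑ k ∈ V.erase k0, (A.Mr k V - 1) = ∑ k ∈ V.erase k0, A.Mr k V - 4 := by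
    rw [Finset.sum_sub_distrib, Finset.sum_const, hcard4, nsmul_eq_mul]
    norm_num
  have hMr0 := A.Mr_nonneg k0 V
  have hnn4 := Finset.sum_nonneg hsub0
  have hk0z : A.Mr k0 V = 0 := by linarith
  have hz4 : ∑ k ∈ V.erase k0, (A.Mr k V - 1) = 0 := by linarith
  have hone : ∀ k ∈ V.erase k0, A.Mr k V = 1 := by
    intro k hk
    have := (Finset.sum_eq_zero_iff_of_nonneg hsub0).1 hz4 k hk
    linarith
  -- all rows of the other parts have row sum one
  have hrows : ∀ k ∈ V.erase k0, ∀ gg ∈ A.S k, rs gg V = 1 := by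
    intro k hk gg hgg
    have hk' := Finset.mem_erase.1 hk
    have h1 := hpair k hk'.2 k0 hk0 hk'.1
    have hge : ∀ g' ∈ A.S k, 1 ≤ rs g' V := by
      intro g' hg'
      have := hmin k g' hg'
      omega
    have h2 : ∑ g' ∈ A.S k, A.p k g' * ((rs g' V : ℝ) - 1) = 0 := by
      have h3 := A.Mr_eq k V
      rw [hone k hk] at h3
      have h4 := A.sum_one k
      simp_rw [mul_sub, mul_one]
      rw [Finset.sum_sub_distrib, ← h3, h4]
      ring
    have h5 : ∀ g' ∈ A.S k, 0 ≤ A.p k g' * ((rs g' V : ℝ) - 1) := by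
      intro g' hg'
      refine mul_nonneg (A.pos k g' hg').le ?_
      have : (1 : ℝ) ≤ (rs g' V : ℝ) := by exact_mod_cast hge g' hg'
      linarith
    have h6 := (Finset.sum_eq_zero_iff_of_nonneg h5).1 h2 gg hgg
    rcases mul_eq_zero.1 h6 with h7 | h7
    · exact absurd h7 (ne_of_gt (A.pos k gg hgg))
    · have : (rs gg V : ℝ) = 1 := by linarith
      exact_mod_cast this
  -- a part `i ≠ k0`
  obtain ⟨i, hi⟩ : (V.erase k0).Nonempty := Finset.card_pos.1 (by omega)
  have hi' := Finset.mem_erase.1 hi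
  have hMri := hone i hi
  obtain ⟨k, hk, hMik⟩ : ∃ k ∈ V, 0 < A.M i k := by
    by_contra hcon
    push Not at hcon
    have : A.Mr i V ≤ 0 := Finset.sum_nonpos hcon
    linarith
  have hki : k ≠ i := by
    intro hki
    rw [hki, A.M_diag] at hMik
    exact lt_irrefl _ hMik
  have hMki : 0 < A.M k i := by rw [A.M_symm]; exact hMik
  have hkk0 : k ≠ k0 := by
    intro hkk
    have h1 : A.M k i ≤ A.Mr k V :=
      Finset.single_le_sum (f := fun j => A.M k j) (fun j _ => A.M_nonneg k j) hi'.2
    rw [hkk] at h1 hMki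
    linarith
  have hexrow : ∀ a b : ι, 0 < A.M a b → ∃ gg ∈ A.S a, 1 ≤ gg b := by
    intro a b hab
    by_contra hcon
    push Not at hcon
    have : A.M a b = 0 := by
      unfold M
      refine Finset.sum_eq_zero fun gg hgg => ?_
      have h1 := hcon gg hgg
      have h2 : gg b = 0 := by omega
      rw [h2]; simp
    linarith
  obtain ⟨ga, hga, hgak⟩ := hexrow i k hMik
  obtain ⟨gb, hgb, hgbi⟩ := hexrow k i hMki
  have hpairsub : ({i, k} : Finset ι) ⊆ V := by
    intro a ha
    rcases Finset.mem_insert.1 ha with rfl | ha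
    · exact hi'.2
    · rw [Finset.mem_singleton.1 ha]; exact hk
  have hz : ∀ gg : ι → ℕ, rs gg V = 1 → (1 ≤ gg k ∨ 1 ≤ gg i) → rs gg (V \ {i, k}) = 0 := by
    intro gg h1 h2
    have h3 := rs_sdiff gg hpairsub
    have h4 : rs gg {i, k} = gg i + gg k := by
      unfold rs
      exact Finset.sum_pair (Ne.symm hki)
    omega
  have hfin := hT3 i hi'.2 k hk (Ne.symm hki) ga hga gb hgb
  rw [hz ga (hrows i hi ga hga) (Or.inl hgak),
    hz gb (hrows k (Finset.mem_erase.2 ⟨hkk0, hk⟩) gb hgb) (Or.inr hgbi)] at hfin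
  omega

theorem Ctx.false (h : Ctx A Q u r V x) (huR : u ≤ Q + 1) : False := by
  have hu1 := h.u_pos
  have hQ := h.hQ
  have hQr : (2 : ℝ) ≤ Q := by exact_mod_cast hQ
  have hrr : (r : ℝ) ≤ Q := by exact_mod_cast h.hr
  have hneq := h.n_eq
  have hMM := h.MM_le
  have hthp := h.th_pos
  have hx1 : ∀ k ∈ V, 1 ≤ x k := fun k hk => h.x_pos hu1 hk
  have hPhi : 2 * A.MM V - nn V x r ≤ Q * th Q u V x r := by
    rw [hneq]
    linarith
  rcases Nat.eq_or_lt_of_le hu1 with h1 | h1
  · subst h1
    have h2 := one_bound A h.val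
    have hsx : (V.card : ℤ) ≤ ∑ k ∈ V, x k := by
      have := Finset.sum_le_sum hx1
      rw [Finset.sum_const, nsmul_eq_mul, mul_one] at this
      exact this
    have hc := h.val.1
    rw [hc] at hsx
    push_cast at hsx
    have hr := h.hr
    have hn2 : (2 : ℤ) ≤ nn V x r := by
      unfold nn
      linarith
    have hn2r : (2 : ℝ) ≤ nn V x r := by exact_mod_cast hn2
    push_cast at hneq
    have h3 : (Q : ℝ) * nn V x r - r ≤ Q * th Q 1 V x r := h2.trans hPhi
    set θ := th Q 1 V x r with hθ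
    have h4 : (Q : ℝ) * ((2 + Q) * θ) - Q ≤ Q * θ := by
      have : (nn V x r : ℝ) = (2 + Q) * θ := by linarith
      rw [this] at h3
      linarith
    have h5 : (2 : ℝ) ≤ (2 + Q) * θ := by linarith
    have h6 : (Q : ℝ) * ((2 + Q) * θ - 1) ≤ Q * θ := by linarith
    have h7 := le_of_mul_le_mul_left h6 (by linarith : (0 : ℝ) < Q)
    -- (2+Q) θ - 1 ≤ θ, (2+Q) θ ≥ 2
    have h8 : (1 + (Q : ℝ)) * θ ≤ 1 := by linarith
    have h9 : 2 * (1 + (Q : ℝ)) ≤ 2 + Q := by
      have h10 : (2 + (Q : ℝ)) * ((1 + Q) * θ) ≤ (2 + Q) * 1 :=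
        mul_le_mul_of_nonneg_left h8 (by linarith)
      have h11 : (1 + (Q : ℝ)) * 2 ≤ (1 + Q) * ((2 + Q) * θ) :=
        mul_le_mul_of_nonneg_left h5 (by linarith)
      linarith
    linarith
  · rcases lt_or_ge (2 * nn V x r) (2 * (u : ℤ) + Q) with hlt | hge
    · have h2 := half_bound A hQ u hu1 r V x h.hr h.val hx1 hlt.le
      have hltr : 2 * (nn V x r : ℝ) < 2 * u + Q := by exact_mod_cast hlt
      have hur : (0 : ℝ) ≤ u := Nat.cast_nonneg u
      have h3 : 2 * th Q u V x r < 1 := by
        rw [hneq] at hltr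
        have h4 : (2 * (u : ℝ) + Q) * (2 * th Q u V x r) < (2 * (u : ℝ) + Q) * 1 := by linarith
        exact lt_of_mul_lt_mul_left h4 (by linarith)
      have h5 : (Q : ℝ) * (2 * th Q u V x r) < Q * 1 :=
        mul_lt_mul_of_pos_left h3 (by linarith)
      linarith
    · by_cases hsp : u = 2 ∧ Q = 2 ∧ nn V x r = 3
      · obtain ⟨rfl, rfl, h3⟩ := hsp
        exact h.special h3
      · have h3 : Ctx3 A Q u r V x :=
          { toCtx := h, hu2 := h1, hth := hge, hsp := hsp }
        rcases lt_or_ge (AA V x).card u with hA | hA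
        · exact h3.case_d huR hA
        · exact h3.case_e huR hA

/-- **The first order lemma**, `u ≤ R = Q + 1`. -/
theorem first_order (A : FRow ι) {Q : ℕ} (hQ : 2 ≤ Q) : ∀ u ≤ Q + 1, A.Claim Q u := by
  intro u
  induction u using Nat.strong_induction_on with
  | _ u ih =>
    intro hu r V x hr hval hn
    by_contra hcon
    rw [not_lt] at hcon
    have hctx : Ctx A Q u r V x :=
      { hQ := hQ
        hr := hr
        val := hval
        hn := hn
        hM := by
          unfold nn
          push_cast at hcon ⊢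
          exact hcon
        ih := fun u' hu' => ih u' hu' (by omega) }
    exact hctx.false hu

end FRow

end H23FO
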