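import Pool.Agent.H23.FO.Three

namespace H23FO
open Finset

set_option linter.unusedSectionVars false

variable {ι : Type*} [DecidableEq ι]

namespace FRow

variable {A : FRow ι} {Q u : ℕ} {r : ℤ} {V : Finset ι} {x : ι → ℤ}

/-- leaves of the hub `k` -/
noncomputable def leaves (A : FRow ι) (V : Finset ι) (x : ι → ℤ) (k : ι) : Finset ι :=
  by classical exact (A1 A V x).filter fun i => 0 < Ms A V i k

/-- `f_k = Dbar_k - ∑_{i ∈ A1} Ms i k` -/
noncomputable def ff (A : FRow ι) (V : Finset ι) (x : ι → ℤ) (k : ι) : ℝ :=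
  A.Mr k V - ∑ i ∈ A1 A V x, Ms A V i k

lemma star_A1_sub_AA : A1 A V x ⊆ AA V x := by
  classical
  unfold A1
  exact Finset.filter_subset _ _

lemma star_AA_sub : AA V x ⊆ V := by
  unfold AA
  exact Finset.filter_subset _ _

lemma star_BB_sub : BB V x ⊆ V := by
  unfold BB
  exact Finset.filter_subset _ _

lemma star_SS_sub_AA : SS A V x ⊆ AA V x := by
  classical
  unfold SS
  exact Finset.filter_subset _ _

lemma star_AA_x {i : ι} (hi : i ∈ AA V x) : x i = 1 := by
  unfold AA at hi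
  exact (Finset.mem_filter.1 hi).2

lemma star_BB_x {i : ι} (hi : i ∈ BB V x) : 2 ≤ x i := by
  unfold BB at hi
  exact (Finset.mem_filter.1 hi).2

lemma star_SS_row {i : ι} (hi : i ∈ SS A V x) : ∃ g ∈ A.S i, rs g V = 0 := by
  classical
  unfold SS at hi
  exact (Finset.mem_filter.1 hi).2

lemma ff_nonneg (k : ι) : 0 ≤ ff A V x k := by
  unfold ff
  have h1 : ∑ i ∈ A1 A V x, Ms A V i k ≤ ∑ i ∈ A1 A V x, A.M k i := by
    refine Finset.sum_le_sum fun i _ => ?_
    rw [A.M_symm k i]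
    exact Ms_le_M i k
  have h2 : A.Mr k (A1 A V x) ≤ A.Mr k V :=
    A.Mr_mono k (star_A1_sub_AA.trans star_AA_sub)
  unfold Mr at h2 ⊢
  linarith

lemma mem_leaves {k i : ι} : i ∈ leaves A V x k ↔ i ∈ A1 A V x ∧
    ∃ g ∈ A.S i, rs g V = 1 ∧ g k = 1 := by
  classical
  unfold leaves
  rw [Finset.mem_filter]
  refine and_congr_right fun _ => ?_
  constructor
  · intro h0
    unfold Ms at h0
    by_contra hcon
    push Not at hcon
    have : ((A.S i).filter fun g => rs g V = 1 ∧ g k = 1) = ∅ := by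
      rw [Finset.filter_eq_empty_iff]
      intro g hg hh
      exact hcon g hg hh.1 hh.2
    rw [this, Finset.sum_empty] at h0
    exact lt_irrefl _ h0
  · rintro ⟨g, hg, h1, h2⟩
    unfold Ms
    refine Finset.sum_pos (fun g' hg' => A.pos i g' (Finset.mem_filter.1 hg').1) ?_
    exact ⟨g, Finset.mem_filter.2 ⟨hg, h1, h2⟩⟩

lemma sum_leaves (k : ι) : ∑ i ∈ leaves A V x k, Ms A V i k = ∑ i ∈ A1 A V x, Ms A V i k := by
  classical
  unfold leaves
  rw [Finset.sum_filter]
  refine Finset.sum_congr rfl fun i _ => ?_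
  split_ifs with h0
  · rfl
  · exact le_antisymm (Ms_nonneg i k) (not_lt.1 h0)

/-- the touch estimate for a star `C = {k} ∪ L`, `L ⊆ leaves k`. -/
lemma Ctx3.touch_star (h : Ctx3 A Q u r V x) {k : ι} (hk : k ∈ BB V x) {L : Finset ι}
    (hL : L ⊆ leaves A V x k) {m : ℕ} (hm : (m : ℝ) ≤ A.Mr k (V \ insert k L)) :
    (m : ℝ) + L.card ≤ A.MM V - A.MM (V \ insert k L) := by
  have hLA1 : L ⊆ A1 A V x := fun i hi => (mem_leaves.1 (hL hi)).1
  have hLAA : L ⊆ AA V x := hLA1.trans star_A1_sub_AA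
  have hkV : k ∈ V := star_BB_sub hk
  have hkL : k ∉ L := by
    intro hkL
    have h1 := star_AA_x (hLAA hkL)
    have h2 := star_BB_x hk
    omega
  have hCV : insert k L ⊆ V := Finset.insert_subset hkV (hLAA.trans star_AA_sub)
  have hsplit := A.MM_split hCV
  have h2C := A.two_MM (insert k L)
  rw [Finset.sum_insert hkL] at hsplit h2C
  have hkC : A.Mr k (insert k L) = ∑ j ∈ L, A.M j k := by
    unfold Mr
    rw [Finset.sum_insert hkL, A.M_diag k, zero_add]
    exact Finset.sum_congr rfl fun j _ => A.M_symm k j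
  have hjC : ∀ j, A.Mr j (insert k L) = A.M j k + A.Mr j L := by
    intro j
    unfold Mr
    rw [Finset.sum_insert hkL]
  have hsum1 : ∑ j ∈ L, A.Mr j (insert k L) = ∑ j ∈ L, A.M j k + ∑ j ∈ L, A.Mr j L := by
    rw [← Finset.sum_add_distrib]
    exact Finset.sum_congr rfl fun j _ => hjC j
  rw [hkC, hsum1] at h2C
  have hV : ∑ j ∈ L, A.Mr j V
      = ∑ j ∈ L, A.Mr j (V \ insert k L) + ∑ j ∈ L, A.M j k + ∑ j ∈ L, A.Mr j L := by
    rw [← Finset.sum_add_distrib, ← Finset.sum_add_distrib]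
    refine Finset.sum_congr rfl fun j _ => ?_
    have h1 := A.Mr_sdiff j hCV
    rw [hjC j] at h1
    linarith
  have hmain : (L.card : ℝ) ≤ ∑ j ∈ L, (A.Mr j V - A.Mr j L / 2) := by
    have h1 : ∑ j ∈ L, (1 : ℝ) ≤ ∑ j ∈ L, (A.Mr j V - A.Mr j L / 2) := by
      refine Finset.sum_le_sum fun j hj => ?_
      have h2 := h.Mr_AA_le (hLA1 hj)
      have h3 := one_add_qq_le (hLA1 hj)
      have h4 : A.Mr j L ≤ A.Mr j (AA V x) := A.Mr_mono j hLAA
      linarith
    simpa using h1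
  rw [Finset.sum_sub_distrib, ← Finset.sum_div] at hmain
  linarith

/-- the rows of a star: `δ_k` on the leaves and `gk` at the hub -/
lemma star_rows {k : ι} {L : Finset ι} (hkL : k ∉ L) (hL : L ⊆ leaves A V x k)
    (hkV : k ∈ V) (hLV : L ⊆ V) {gk : ι → ℕ} (hgk : gk ∈ A.S k) :
    ∃ g : ι → ι → ℕ, (∀ i ∈ insert k L, g i ∈ A.S i) ∧ g k = gk ∧
      ∀ i ∈ L, rs (g i) (V \ insert k L) = 0 := by
  classical
  have h1 : ∀ i, ∃ g : ι → ℕ, i ∈ L → (g ∈ A.S i ∧ rs g (V \ insert k L) = 0) := by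
    intro i
    by_cases hi : i ∈ L
    · obtain ⟨g, hg, hg1, hgk1⟩ := (mem_leaves.1 (hL hi)).2
      refine ⟨g, fun _ => ⟨hg, ?_⟩⟩
      have hCV : insert k L ⊆ V := Finset.insert_subset hkV hLV
      have h2 := rs_sdiff g hCV
      have h3 : g k ≤ rs g (insert k L) := by
        unfold rs
        exact Finset.single_le_sum (f := g) (fun _ _ => Nat.zero_le _)
          (Finset.mem_insert_self k L)
      omega
    · exact ⟨gk, fun hh => absurd hh hi⟩
  choose G hG using h1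
  refine ⟨fun i => if i = k then gk else G i, ?_, by simp, ?_⟩
  · intro i hi
    by_cases hik : i = k
    · subst hik; simpa using hgk
    · simp only [hik, if_false]
      exact (hG i ((Finset.mem_insert.1 hi).resolve_left hik)).1
  · intro i hi
    have hik : i ≠ k := fun hh => hkL (hh ▸ hi)
    simp only [hik, if_false]
    exact (hG i hi).2

/-- (3f), first part: few leaves or a large surplus. -/
theorem Ctx3.star (h : Ctx3 A Q u r V x) {k : ι} (hk : k ∈ BB V x) :
    ((leaves A V x k).card : ℤ) ≤ 2 * (x k - 1) ∨ u * th Q u V x r ≤ x k := by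
  by_contra hcon
  push Not at hcon
  obtain ⟨hcard, hxk⟩ := hcon
  have hx2 := star_BB_x hk
  have hkV : k ∈ V := star_BB_sub hk
  obtain ⟨X, hX⟩ : ∃ X : ℕ, x k = (X : ℤ) := ⟨(x k).toNat, by omega⟩
  have hXR : (x k : ℝ) = (X : ℝ) := by rw [hX]; norm_cast
  have hleavesAA : leaves A V x k ⊆ AA V x := fun i hi =>
    star_A1_sub_AA (mem_leaves.1 hi).1
  have hkl : k ∉ leaves A V x k := by
    intro hh
    have h1 := star_AA_x (hleavesAA hh)
    omega
  -- the common computation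
  have hgen : ∀ L ⊆ leaves A V x k, ∀ b : ℕ, L.card + 1 + b = u →
      ∃ m : ℕ, (2 * (b : ℝ) + Q) * (m + L.card) + ((L.card : ℝ) + 1) * Q * th Q u V x r
        ≤ ((b : ℝ) + Q) * ((x k : ℝ) + L.card + m) ∧
        ((m : ℝ) + L.card ≤ A.MM V) ∧
        (b = 0 → nn V x r - x k - L.card ≤ m) := by
    intro L hL b hb
    have hkL : k ∉ L := fun hh => hkl (hL hh)
    have hLAA : L ⊆ AA V x := hL.trans hleavesAA
    have hLV : L ⊆ V := hLAA.trans star_AA_sub
    have hCV : insert k L ⊆ V := Finset.insert_subset hkV hLV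
    have hCc : (insert k L).card = L.card + 1 := Finset.card_insert_of_notMem hkL
    obtain ⟨gk, hgk, -, hle⟩ := A.exists_min k (V \ insert k L)
    obtain ⟨g, hg, hgeq, hg0⟩ := star_rows hkL hL hkV hLV hgk
    have htouch := h.touch_star hk hL hle
    have hEC := (h.toCtx.EC hCV (Finset.insert_nonempty k L) (b := b)
      (by rw [hCc]; omega) g hg).1
    have hsx : ∑ j ∈ insert k L, x j = x k + L.card := by
      rw [Finset.sum_insert hkL]
      have : ∑ j ∈ L, x j = ∑ j ∈ L, (1 : ℤ) :=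
        Finset.sum_congr rfl fun j hj => star_AA_x (hLAA hj)
      rw [this]; simp
    have hsr : ∑ i ∈ insert k L, (rs (g i) (V \ insert k L) : ℝ)
        = (rs gk (V \ insert k L) : ℝ) := by
      rw [Finset.sum_insert hkL, hgeq]
      have : ∑ i ∈ L, (rs (g i) (V \ insert k L) : ℝ) = 0 :=
        Finset.sum_eq_zero fun i hi => by rw [hg0 i hi]; simp
      rw [this, add_zero]
    have hsrZ : ∑ i ∈ insert k L, (rs (g i) (V \ insert k L) : ℤ)
        = (rs gk (V \ insert k L) : ℤ) := by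
      rw [Finset.sum_insert hkL, hgeq]
      have : ∑ i ∈ L, (rs (g i) (V \ insert k L) : ℤ) = 0 :=
        Finset.sum_eq_zero fun i hi => by rw [hg0 i hi]; simp
      rw [this, add_zero]
    refine ⟨rs gk (V \ insert k L), ?_, ?_, ?_⟩
    · rw [hsr, hsx, hCc] at hEC
      push_cast at hEC
      have hpos : (0 : ℝ) ≤ 2 * (b : ℝ) + Q := by positivity
      have h1 := mul_le_mul_of_nonneg_left htouch hpos
      linarith
    · have h1 := A.MM_nonneg (V \ insert k L)
      linarith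
    · intro hb0
      have h1 := h.val.2 (insert k L) hCV (by rw [hCc]; omega) g hg
      rw [hsrZ, hsx] at h1
      unfold nn
      linarith
  have hQ : (2 : ℝ) ≤ Q := by exact_mod_cast h.hQ
  have hhalf := h.half_le
  by_cases hcase : 2 * X + 1 ≤ u
  · obtain ⟨L, hL, hLc⟩ := Finset.exists_subset_card_eq
      (s := leaves A V x k) (n := 2 * X - 1) (by omega)
    obtain ⟨m, h1, -, -⟩ := hgen L hL (u - 2 * X) (by omega)
    have hLR : (L.card : ℝ) = 2 * X - 1 := by
      rw [hLc, Nat.cast_sub (by omega)]; push_cast; ring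
    have hb1 : (1 : ℝ) ≤ ((u - 2 * X : ℕ) : ℝ) := by
      have : 1 ≤ u - 2 * X := by omega
      exact_mod_cast this
    rw [hLR, hXR] at h1
    set b : ℝ := ((u - 2 * X : ℕ) : ℝ)
    set θ := th Q u V x r
    have hX2 : (2 : ℝ) ≤ X := by
      have : 2 ≤ X := by omega
      exact_mod_cast this
    have hm0 : (0 : ℝ) ≤ m := Nat.cast_nonneg m
    have e : (2 * b + Q) * (m + (2 * X - 1)) + ((2 * (X : ℝ) - 1) + 1) * Q * θ
        - (b + Q) * ((X : ℝ) + (2 * X - 1) + m)
        = b * m + b * (X - 1) + X * Q * (2 * θ - 1) := by ring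
    have p1 : 0 ≤ b * m := mul_nonneg (by linarith) hm0
    have p2 : 0 < b * (X - 1) := mul_pos (by linarith) (by linarith)
    have p3 : 0 ≤ (X : ℝ) * Q * (2 * θ - 1) :=
      mul_nonneg (mul_nonneg (by linarith) (by linarith)) (by linarith)
    linarith
  · have hu2 := h.hu2
    obtain ⟨L, hL, hLc⟩ := Finset.exists_subset_card_eq
      (s := leaves A V x k) (n := u - 1) (by omega)
    obtain ⟨m, -, h1, h2⟩ := hgen L hL 0 (by omega)
    have h3 := h2 rfl
    have h3' : (nn V x r : ℝ) - x k - L.card ≤ m := by exact_mod_cast h3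
    have h4 := h.toCtx.MM_le
    have h5 := h.toCtx.n_eq
    nlinarith

/-- (3e): `n - u ≤ u - s` in the case `|A| ≥ u`. -/
theorem Ctx3.n_le (h : Ctx3 A Q u r V x) (hA : u ≤ (AA V x).card) :
    nn V x r + (SS A V x).card ≤ 2 * u := by
  classical
  have hs := h.three_c
  have hcardAA : (SS A V x).card + (A1 A V x).card = (AA V x).card := by
    rw [← Finset.card_union_of_disjoint disjoint_SS_A1, SS_union_A1]
  obtain ⟨L, hL, hLc⟩ := Finset.exists_subset_card_eq
    (s := A1 A V x) (n := u - (SS A V x).card) (by omega)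
  have hdis : Disjoint (SS A V x) L := Finset.disjoint_of_subset_right hL disjoint_SS_A1
  have hIV : SS A V x ∪ L ⊆ V :=
    Finset.union_subset (star_SS_sub_AA.trans star_AA_sub)
      ((hL.trans star_A1_sub_AA).trans star_AA_sub)
  have hIc : (SS A V x ∪ L).card = u := by
    rw [Finset.card_union_of_disjoint hdis, hLc]; omega
  have hrow : ∀ i, ∃ g : ι → ℕ, (i ∈ SS A V x → g ∈ A.S i ∧ rs g V = 0) ∧
      (i ∈ L → g ∈ A.S i ∧ rs g V = 1) := by
    intro i
    by_cases hi : i ∈ SS A V x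
    · obtain ⟨g, hg, hg0⟩ := star_SS_row hi
      exact ⟨g, fun _ => ⟨hg, hg0⟩, fun hi' => absurd hi' (Finset.disjoint_left.1 hdis hi)⟩
    · by_cases hi' : i ∈ L
      · obtain ⟨g, hg, hg1, -⟩ := h.exists_single (hL hi')
        exact ⟨g, fun hh => absurd hh hi, fun _ => ⟨hg, hg1⟩⟩
      · exact ⟨fun _ => 0, fun hh => absurd hh hi, fun hh => absurd hh hi'⟩
  choose g hg1 hg2 using hrow
  have hT3 := h.toCtx.T3 hIV hIc g (by
    intro i hi
    rcases Finset.mem_union.1 hi with hi | hi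
    · exact (hg1 i hi).1
    · exact (hg2 i hi).1)
  rw [Finset.sum_union hdis] at hT3
  have e1 : ∑ i ∈ SS A V x, ((rs (g i) (V \ (SS A V x ∪ L)) : ℤ) + (x i - 1)) ≤ 0 := by
    refine Finset.sum_nonpos fun i hi => ?_
    have hx := star_AA_x (star_SS_sub_AA hi)
    have hr := (hg1 i hi).2
    have hmono : rs (g i) (V \ (SS A V x ∪ L)) ≤ rs (g i) V :=
      rs_mono _ Finset.sdiff_subset
    omega
  have e2 : ∑ i ∈ L, ((rs (g i) (V \ (SS A V x ∪ L)) : ℤ) + (x i - 1)) ≤ ∑ i ∈ L, (1 : ℤ) := by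
    refine Finset.sum_le_sum fun i hi => ?_
    have hx := star_AA_x (star_A1_sub_AA (hL hi))
    have hr := (hg2 i hi).2
    have hmono : rs (g i) (V \ (SS A V x ∪ L)) ≤ rs (g i) V :=
      rs_mono _ Finset.sdiff_subset
    omega
  have e3 : ∑ i ∈ L, (1 : ℤ) = (L.card : ℤ) := by simp
  rw [e3, hLc] at e2
  omega

/-- (3e): the goal. `n = u + δ + Z`, so `Z + 2β + 2s + δ - 1 - w = n + 2β + 2s - 1 - u - w`. -/
theorem Ctx3.goal (h : Ctx3 A Q u r V x) (hA : u ≤ (AA V x).card)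
    (hf : (nn V x r : ℝ) + 2 * (BB V x).card + 2 * (SS A V x).card - 1 - u - V.card
      ≤ ∑ k ∈ BB V x, ff A V x k) : False := by
  have hcardAA : (SS A V x).card + (A1 A V x).card = (AA V x).card := by
    rw [← Finset.card_union_of_disjoint disjoint_SS_A1, SS_union_A1]
  have hcardV : (AA V x).card + (BB V x).card = V.card := by
    rw [← Finset.card_union_of_disjoint disjoint_AA_BB, h.AA_union_BB]
  have hVc : V.card = u + (Q + 1) := h.val.1
  have h2 := A.two_MM V
  have hs1 : ∑ k ∈ V, A.Mr k V = ∑ k ∈ SS A V x, A.Mr k V + ∑ k ∈ A1 A V x, A.Mr k V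
      + ∑ k ∈ BB V x, A.Mr k V := by
    have e1 : ∑ k ∈ AA V x ∪ BB V x, A.Mr k V
        = ∑ k ∈ AA V x, A.Mr k V + ∑ k ∈ BB V x, A.Mr k V :=
      Finset.sum_union disjoint_AA_BB
    have e2 : ∑ k ∈ SS A V x ∪ A1 A V x, A.Mr k V
        = ∑ k ∈ SS A V x, A.Mr k V + ∑ k ∈ A1 A V x, A.Mr k V :=
      Finset.sum_union disjoint_SS_A1
    rw [h.AA_union_BB] at e1
    rw [SS_union_A1] at e2
    rw [e1, e2]
  have hSS : 0 ≤ ∑ k ∈ SS A V x, A.Mr k V := Finset.sum_nonneg fun k _ => A.Mr_nonneg k V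
  have hA1 : ∑ k ∈ A1 A V x, (1 + qq A V k) ≤ ∑ k ∈ A1 A V x, A.Mr k V :=
    Finset.sum_le_sum fun k hk => one_add_qq_le hk
  have hBB : ∑ k ∈ BB V x, A.Mr k V
      = ∑ k ∈ BB V x, ff A V x k + ∑ i ∈ A1 A V x, (1 - qq A V i) := by
    have e1 : ∑ i ∈ A1 A V x, (1 - qq A V i)
        = ∑ k ∈ BB V x, ∑ i ∈ A1 A V x, Ms A V i k := by
      rw [Finset.sum_comm]
      exact Finset.sum_congr rfl fun i hi => (h.sum_Ms hi).symm
    rw [e1, ← Finset.sum_add_distrib]
    refine Finset.sum_congr rfl fun k _ => ?_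
    unfold ff; ring
  have hsum2 : ∑ k ∈ A1 A V x, (1 + qq A V k) + ∑ i ∈ A1 A V x, (1 - qq A V i)
      = 2 * ((A1 A V x).card : ℝ) := by
    rw [← Finset.sum_add_distrib]
    have : ∀ i ∈ A1 A V x, (1 + qq A V i) + (1 - qq A V i) = (2 : ℝ) := fun i _ => by ring
    rw [Finset.sum_congr rfl this, Finset.sum_const, nsmul_eq_mul]; ring
  have hc1 : ((SS A V x).card : ℝ) + (A1 A V x).card = (AA V x).card := by
    exact_mod_cast hcardAA
  have hc2 : ((AA V x).card : ℝ) + (BB V x).card = V.card := by exact_mod_cast hcardV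
  have hc3 : (V.card : ℝ) = u + (Q + 1) := by rw [hVc]; push_cast; ring
  have hMM := h.toCtx.MM_le
  have hn := h.toCtx.n_eq
  have hQ : (2 : ℝ) ≤ Q := by exact_mod_cast h.hQ
  have hnle := h.n_le hA
  have hnle' : (nn V x r : ℝ) + (SS A V x).card ≤ 2 * u := by exact_mod_cast hnle
  have hs0 : (0 : ℝ) ≤ (SS A V x).card := Nat.cast_nonneg _
  have hu0 : (0 : ℝ) ≤ u := Nat.cast_nonneg _
  set θ := th Q u V x r
  have h5 : (nn V x r : ℝ) + Q ≤ 2 * ((u + Q) * θ) := by linarith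
  have h6 : (Q : ℝ) * (1 - θ) ≤ 0 := by nlinarith
  have h7 : 1 ≤ θ := by
    by_contra hlt
    push Not at hlt
    have : 0 < (Q : ℝ) * (1 - θ) := mul_pos (by linarith) (by linarith)
    linarith
  nlinarith

/-- (3f), second part: a hub with a large surplus gives the goal. -/
theorem Ctx3.big_hub (h : Ctx3 A Q u r V x) (hA : u ≤ (AA V x).card) {k : ι}
    (hk : k ∈ BB V x) (hx : u * th Q u V x r ≤ x k) : False := by
  refine h.goal hA ?_
  have hff : 0 ≤ ∑ k ∈ BB V x, ff A V x k := Finset.sum_nonneg fun k _ => ff_nonneg k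
  refine le_trans ?_ hff
  have hcardV : (AA V x).card + (BB V x).card = V.card := by
    rw [← Finset.card_union_of_disjoint disjoint_AA_BB, h.AA_union_BB]
  have hVc : V.card = u + (Q + 1) := h.val.1
  have hsx : ∑ j ∈ V, x j = ∑ j ∈ AA V x, x j + ∑ j ∈ BB V x, x j := by
    have e1 : ∑ k ∈ AA V x ∪ BB V x, x k
        = ∑ k ∈ AA V x, x k + ∑ k ∈ BB V x, x k :=
      Finset.sum_union disjoint_AA_BB
    rw [h.AA_union_BB] at e1
    exact e1
  have hsA : ∑ j ∈ AA V x, x j = ((AA V x).card : ℤ) := by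
    have : ∑ j ∈ AA V x, x j = ∑ j ∈ AA V x, (1 : ℤ) :=
      Finset.sum_congr rfl fun j hj => star_AA_x hj
    rw [this]; simp
  have hsB : x k + 2 * (((BB V x).card : ℤ) - 1) ≤ ∑ j ∈ BB V x, x j := by
    rw [← Finset.add_sum_erase _ _ hk]
    have h1 : ∑ j ∈ (BB V x).erase k, (2 : ℤ) ≤ ∑ j ∈ (BB V x).erase k, x j :=
      Finset.sum_le_sum fun j hj => star_BB_x (Finset.mem_of_mem_erase hj)
    have h2 : ∑ j ∈ (BB V x).erase k, (2 : ℤ) = 2 * (((BB V x).card : ℤ) - 1) := by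
      rw [Finset.sum_const, Finset.card_erase_of_mem hk, nsmul_eq_mul,
        Nat.cast_sub (Finset.card_pos.2 ⟨k, hk⟩)]
      push_cast; ring
    linarith
  have hr := h.hr
  have hn : nn V x r = ∑ j ∈ V, x j - r := rfl
  have hnle := h.n_le hA
  have hβ : ((BB V x).card : ℤ) ≤ nn V x r - u - x k + 1 := by
    rw [hn, hsx, hsA]
    have h1 : ((AA V x).card : ℤ) + (BB V x).card = u + (Q + 1) := by
      rw [← Nat.cast_add, hcardV, hVc]; push_cast; ring
    omega
  have hβ' : ((BB V x).card : ℝ) ≤ nn V x r - u - x k + 1 := by exact_mod_cast hβ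
  have hnle' : (nn V x r : ℝ) + (SS A V x).card ≤ 2 * u := by exact_mod_cast hnle
  have hc3 : (V.card : ℝ) = u + (Q + 1) := by rw [hVc]; push_cast; ring
  have hneq := h.toCtx.n_eq
  have hQ : (2 : ℝ) ≤ Q := by exact_mod_cast h.hQ
  have hs0 : (0 : ℝ) ≤ (SS A V x).card := Nat.cast_nonneg _
  have hu0 : (0 : ℝ) ≤ u := Nat.cast_nonneg _
  set θ := th Q u V x r
  have hθ1 : θ ≤ 1 := by
    by_contra hlt
    push Not at hlt
    nlinarith
  have hn2 : (nn V x r : ℝ) ≤ 2 * x k + Q := by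
    rw [hneq]
    nlinarith
  linarith

end FRow

end H23FO
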