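import Pool.Agent.H23.FO.Avg

namespace H23FO
open Finset

set_option linter.unusedSectionVars false

variable {ι : Type*} [DecidableEq ι]

namespace FRow

/-- A minimal counterexample with `θ ≥ 1/2`, `u ≥ 2`, not in the special case. -/
structure Ctx3 (A : FRow ι) (Q u : ℕ) (r : ℤ) (V : Finset ι) (x : ι → ℤ) : Prop extends
    Ctx A Q u r V x where
  hu2 : 2 ≤ u
  hth : 2 * (u : ℤ) + Q ≤ 2 * nn V x r
  hsp : ¬ (u = 2 ∧ Q = 2 ∧ nn V x r = 3)

/-- parts with `x = 1` -/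
def AA (V : Finset ι) (x : ι → ℤ) : Finset ι := V.filter fun k => x k = 1

/-- hubs -/
def BB (V : Finset ι) (x : ι → ℤ) : Finset ι := V.filter fun k => 2 ≤ x k

/-- sinks: parts with `x = 1` and an empty row -/
noncomputable def SS (A : FRow ι) (V : Finset ι) (x : ι → ℤ) : Finset ι :=
  by classical exact (AA V x).filter fun k => ∃ g ∈ A.S k, rs g V = 0

/-- parts with `x = 1` and without empty row -/
noncomputable def A1 (A : FRow ι) (V : Finset ι) (x : ι → ℤ) : Finset ι :=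
  by classical exact (AA V x).filter fun k => ∀ g ∈ A.S k, 1 ≤ rs g V

/-- probability of the single row at `h` -/
noncomputable def Ms (A : FRow ι) (V : Finset ι) (i h : ι) : ℝ :=
  ∑ g ∈ (A.S i).filter (fun g => rs g V = 1 ∧ g h = 1), A.p i g

/-- probability of a row sum `≥ 2` -/
noncomputable def qq (A : FRow ι) (V : Finset ι) (i : ι) : ℝ :=
  ∑ g ∈ (A.S i).filter (fun g => 2 ≤ rs g V), A.p i g

variable {A : FRow ι} {Q u : ℕ} {r : ℤ} {V : Finset ι} {x : ι → ℤ}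

lemma Ctx3.half_le (h : Ctx3 A Q u r V x) : 1 ≤ 2 * th Q u V x r := by
  have h1 := h.toCtx.n_eq
  have hQ : (2 : ℝ) ≤ Q := by exact_mod_cast h.hQ
  have h2 : (2 * (u : ℝ) + Q) ≤ 2 * (nn V x r : ℝ) := by exact_mod_cast h.hth
  have h3 : (0 : ℝ) < 2 * u + Q := by positivity
  rw [h1] at h2
  have h4 : (2 * (u : ℝ) + Q) * 1 ≤ (2 * (u : ℝ) + Q) * (2 * th Q u V x r) := by linarith
  exact le_of_mul_le_mul_left h4 h3

/-- `(Q + 1) θ ≤ u` -/
lemma Ctx3.th_le_u (h : Ctx3 A Q u r V x) : ((Q : ℝ) + 1) * th Q u V x r ≤ u := by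
  have h1 := h.toCtx.th_le
  have hQ : (2 : ℝ) ≤ Q := by exact_mod_cast h.hQ
  have hr : (r : ℝ) ≤ Q := by exact_mod_cast h.hr
  have hu : (0 : ℝ) ≤ u := Nat.cast_nonneg u
  have h2 : (u : ℝ) * r ≤ u * Q := mul_le_mul_of_nonneg_left hr hu
  have h3 : (Q : ℝ) * (((Q : ℝ) + 1) * th Q u V x r) ≤ (Q : ℝ) * u := by nlinarith
  exact le_of_mul_le_mul_left h3 (by linarith)

lemma Ctx3.Q_le (h : Ctx3 A Q u r V x) : Q + 1 ≤ 2 * u := by
  have h1 := h.th_le_u
  have h2 := h.half_le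
  have hQ : (2 : ℝ) ≤ Q := by exact_mod_cast h.hQ
  have h3 : ((Q : ℝ) + 1) * 1 ≤ ((Q : ℝ) + 1) * (2 * th Q u V x r) :=
    mul_le_mul_of_nonneg_left h2 (by linarith)
  have h4 : ((Q : ℝ) + 1) ≤ 2 * u := by linarith
  exact_mod_cast h4

/-- if `θ = 1/2` then `2 n = 2 u + Q` -/
lemma Ctx3.two_nn (h : Ctx3 A Q u r V x) (hth : 2 * th Q u V x r ≤ 1) :
    2 * nn V x r = 2 * (u : ℤ) + Q := by
  have h1 := h.toCtx.n_eq
  have h2 : 2 * th Q u V x r = 1 := le_antisymm hth h.half_le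
  have h3 : 2 * (nn V x r : ℝ) = 2 * (u : ℝ) + Q := by
    rw [h1]
    calc 2 * ((2 * (u : ℝ) + Q) * th Q u V x r) = (2 * (u : ℝ) + Q) * (2 * th Q u V x r) := by ring
      _ = _ := by rw [h2, mul_one]
  exact_mod_cast h3

/-- (3a) -/
theorem Ctx3.three_a (h : Ctx3 A Q u r V x) {k : ι} (hk : k ∈ AA V x) :
    ∃ g ∈ A.S k, rs g V ≤ 1 := by
  by_contra hcon
  push Not at hcon
  obtain ⟨hkV, hxk⟩ := Finset.mem_filter.1 hk
  obtain ⟨g, hg, -, hle⟩ := A.exists_min k V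
  have hD : 2 ≤ rs g V := hcon g hg
  have hu2 := h.hu2
  obtain ⟨hE, hEs⟩ := h.toCtx.EC1 hkV (by omega) hg
  have hQ : (2 : ℝ) ≤ Q := by exact_mod_cast h.hQ
  have hu : (2 : ℝ) ≤ u := by exact_mod_cast hu2
  have hhalf := h.half_le
  have hxk' : (x k : ℝ) = 1 := by rw [hxk]; norm_num
  rw [hxk'] at hE hEs
  set D : ℝ := (rs g V : ℝ) with hDdef
  have hD2 : (2 : ℝ) ≤ D := by rw [hDdef]; exact_mod_cast hD
  set θ := th Q u V x r with hθ
  have hMr : (2 * ((u : ℝ) - 1) + Q) * D ≤ (2 * ((u : ℝ) - 1) + Q) * A.Mr k V :=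
    mul_le_mul_of_nonneg_left hle (by linarith)
  -- `(u-1) D + Q θ ≤ u - 1 + Q`
  have h1 : ((u : ℝ) - 1) * D + Q * θ ≤ (u : ℝ) - 1 + Q := by nlinarith
  have h2 : ((u : ℝ) - 1) * 2 ≤ ((u : ℝ) - 1) * D := mul_le_mul_of_nonneg_left hD2 (by linarith)
  have h3 : (Q : ℝ) * 1 ≤ Q * (2 * θ) := mul_le_mul_of_nonneg_left hhalf (by linarith)
  have h4 : 2 * (u : ℝ) ≤ Q + 2 := by linarith
  have h4' : 2 * u ≤ Q + 2 := by exact_mod_cast h4
  have h5 := h.Q_le
  rcases Nat.eq_or_lt_of_le h5 with h6 | h6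
  · -- `2 u = Q + 1`
    have h7 := h.th_le_u
    have h8 : (Q : ℝ) + 1 = 2 * u := by exact_mod_cast h6
    have h9 : 2 * θ ≤ 1 := by
      rw [h8] at h7
      have h10 : (u : ℝ) * (2 * θ) ≤ u * 1 := by linarith
      exact le_of_mul_le_mul_left h10 (by linarith)
    have h10 := h.two_nn h9
    omega
  · -- `2 u = Q + 2`
    have h7 : 2 * u = Q + 2 := by omega
    have h8 : 2 * (u : ℝ) = Q + 2 := by exact_mod_cast h7
    have hu1 : (u : ℝ) - 1 = Q / 2 := by linarith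
    have h9 : (Q : ℝ) * (D + 2 * θ) ≤ (Q : ℝ) * 3 := by
      rw [hu1] at h1
      linarith
    have h10 : D + 2 * θ ≤ 3 := le_of_mul_le_mul_left h9 (by linarith)
    have h11 : D ≤ 2 := by linarith
    have h12 : 2 * θ ≤ 1 := by linarith
    have h13 := h.two_nn h12
    have h14 : rs g V ≤ 2 := by
      have : ((rs g V : ℕ) : ℝ) ≤ ((2 : ℕ) : ℝ) := by
        push_cast
        exact h11
      exact_mod_cast this
    have h15 : ¬ 0 < nn V x r - x k - (rs g V : ℤ) := by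
      intro h16
      have h17 := hEs h16
      have h18 : D = 2 := le_antisymm h11 hD2
      have h19 : 2 * θ = 1 := le_antisymm h12 hhalf
      rw [h18] at hMr h17
      nlinarith
    have h16 : nn V x r ≤ 3 := by omega
    have h17 : u ≤ 2 := by omega
    have h18 : u = 2 := by omega
    exact h.hsp ⟨h18, by omega, by omega⟩

/-- in a row with row sum `1` in `V` the only nonzero entry in `V` is `1` -/
lemma exists_of_rs_one {g : ι → ℕ} (hg : rs g V = 1) : ∃ k ∈ V, g k = 1 ∧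
    ∀ i ∈ V, i ≠ k → g i = 0 := by
  have h0 : ∃ k ∈ V, g k ≠ 0 := by
    by_contra hcon
    push Not at hcon
    have : rs g V = 0 := Finset.sum_eq_zero hcon
    omega
  obtain ⟨k, hk, hgk⟩ := h0
  have h1 : g k + ∑ i ∈ V.erase k, g i = 1 := by
    rw [Finset.add_sum_erase V g hk]
    exact hg
  refine ⟨k, hk, by omega, fun i hi hik => ?_⟩
  have h2 : ∑ i ∈ V.erase k, g i = 0 := by omega
  exact Finset.sum_eq_zero_iff.1 h2 i (Finset.mem_erase.2 ⟨hik, hi⟩)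

lemma mem_A1 {i : ι} : i ∈ A1 A V x ↔ i ∈ AA V x ∧ ∀ g ∈ A.S i, 1 ≤ rs g V := by
  classical
  unfold A1
  rw [Finset.mem_filter]

lemma mem_SS {i : ι} : i ∈ SS A V x ↔ i ∈ AA V x ∧ ∃ g ∈ A.S i, rs g V = 0 := by
  classical
  unfold SS
  rw [Finset.mem_filter]

/-- (3b) -/
theorem Ctx3.three_b (h : Ctx3 A Q u r V x) {i : ι} (hi : i ∈ A1 A V x) {g : ι → ℕ}
    (hg : g ∈ A.S i) (hg1 : rs g V = 1) {k : ι} (hk : k ∈ V) (hgk : g k = 1) : 2 ≤ x k := by
  by_contra hcon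
  have hu2 := h.hu2
  obtain ⟨hiA, hrow⟩ := mem_A1.1 hi
  obtain ⟨hiV, hxi⟩ := Finset.mem_filter.1 hiA
  have hxk : x k = 1 := by
    have := h.toCtx.x_pos (by omega) hk
    omega
  have hik : i ≠ k := by
    rintro rfl
    rw [A.diag i g hg] at hgk
    omega
  have hC : ({i, k} : Finset ι) ⊆ V := by
    intro j hj
    rw [Finset.mem_insert, Finset.mem_singleton] at hj
    rcases hj with rfl | rfl
    · exact hiV
    · exact hk
  have hCc : ({i, k} : Finset ι).card = 2 := Finset.card_pair hik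
  obtain ⟨g', hg', -, hle⟩ := A.exists_min k (V \ {i, k})
  obtain ⟨hE, hEs⟩ := h.toCtx.EC hC ⟨i, by simp⟩ (b := u - 2) (by omega)
    (fun j => if j = i then g else g') (by
      intro j hj
      rw [Finset.mem_insert, Finset.mem_singleton] at hj
      rcases hj with rfl | rfl
      · rw [if_pos rfl]; exact hg
      · rw [if_neg (Ne.symm hik)]; exact hg')
  have hrsg : rs g (V \ {i, k}) = 0 := by
    have h1 := rs_sdiff g hC
    have h2 : rs g {i, k} = 1 := by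
      unfold rs
      rw [Finset.sum_pair hik, A.diag i g hg, hgk]
    omega
  have hX : ∑ j ∈ ({i, k} : Finset ι), x j = 2 := by
    rw [Finset.sum_pair hik, hxi, hxk]; norm_num
  have hO : ∑ j ∈ ({i, k} : Finset ι), (rs (if j = i then g else g') (V \ {i, k}) : ℝ)
      = (rs g' (V \ {i, k}) : ℝ) := by
    rw [Finset.sum_pair hik, if_pos rfl, if_neg (Ne.symm hik), hrsg]; simp
  have hO' : ∑ j ∈ ({i, k} : Finset ι), (rs (if j = i then g else g') (V \ {i, k}) : ℤ)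
      = (rs g' (V \ {i, k}) : ℤ) := by
    rw [Finset.sum_pair hik, if_pos rfl, if_neg (Ne.symm hik), hrsg]; simp
  -- touch
  have hMi : 1 ≤ A.Mr i V := by
    rw [A.Mr_eq]
    exact A.le_mean i _ _ fun g hg => by exact_mod_cast hrow g hg
  have htouch : A.Mr i V + A.Mr k (V \ {i, k}) ≤ A.MM V - A.MM (V \ {i, k}) := by
    have h1 := A.MM_erase hiV
    have h2 := A.MM_erase (V := V.erase i) (k := k) (Finset.mem_erase.2 ⟨Ne.symm hik, hk⟩)
    have h3 : (V.erase i).erase k = V \ {i, k} := by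
      ext j
      simp only [Finset.mem_erase, Finset.mem_sdiff, Finset.mem_insert, Finset.mem_singleton]
      tauto
    have h4 : A.Mr k (V \ {i, k}) ≤ A.Mr k (V.erase i) := by
      rw [← h3]
      exact A.Mr_mono k (Finset.erase_subset _ _)
    rw [h3] at h2
    linarith
  set m : ℕ := rs g' (V \ {i, k}) with hm
  set θ := th Q u V x r with hθ
  have hhalf := h.half_le
  have hQ : (2 : ℝ) ≤ Q := by exact_mod_cast h.hQ
  have hb : ((u - 2 : ℕ) : ℝ) = (u : ℝ) - 2 := by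
    rw [Nat.cast_sub hu2]; norm_num
  have hu : (2 : ℝ) ≤ u := by exact_mod_cast hu2
  have hm0 : (0 : ℝ) ≤ m := Nat.cast_nonneg m
  rw [hX, hO, hCc, hb] at hE
  rw [hX, hO, hO', hCc, hb] at hEs
  push_cast at hE hEs
  have hT : (2 * ((u : ℝ) - 2) + Q) * (1 + m) ≤
      (2 * ((u : ℝ) - 2) + Q) * (A.MM V - A.MM (V \ {i, k})) :=
    mul_le_mul_of_nonneg_left (by linarith) (by linarith)
  -- `(u-2) m + 2 Q θ ≤ Q`
  have h1 : ((u : ℝ) - 2) * m + Q * (2 * θ) ≤ Q := by nlinarith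
  have h2 : (Q : ℝ) * 1 ≤ Q * (2 * θ) := mul_le_mul_of_nonneg_left hhalf (by linarith)
  have h3 : 0 ≤ ((u : ℝ) - 2) * m := mul_nonneg (by linarith) hm0
  have h4 : ((u : ℝ) - 2) * m = 0 := by linarith
  have h5 : 2 * θ ≤ 1 := by
    have h6 : (Q : ℝ) * (2 * θ) ≤ Q * 1 := by linarith
    exact le_of_mul_le_mul_left h6 (by linarith)
  have h6 := h.two_nn h5
  have h7 : ¬ 0 < nn V x r - 2 - (m : ℤ) := by
    intro h8
    have h9 := hEs h8
    nlinarith
  have h8 := h.Q_le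
  have hQ2 := h.hQ
  rcases Nat.eq_or_lt_of_le hu2 with h9 | h9
  · exact h.hsp ⟨h9.symm, by omega, by omega⟩
  · have h10 : (2 : ℝ) < u := by exact_mod_cast h9
    have h11 : (m : ℝ) = 0 := (mul_eq_zero.1 h4).resolve_left (by linarith)
    have h12 : m = 0 := by exact_mod_cast h11
    omega

/-- `u + 1 ≤ n` -/
lemma Ctx3.u_lt (h : Ctx3 A Q u r V x) : (u : ℤ) + 1 ≤ nn V x r := by
  have h1 : ∑ _k ∈ V, (1 : ℤ) ≤ ∑ k ∈ V, x k :=
    Finset.sum_le_sum fun k hk => h.toCtx.x_pos (by have := h.hu2; omega) hk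
  rw [Finset.sum_const, h.val.1, nsmul_eq_mul, mul_one] at h1
  push_cast at h1
  have h2 := h.hr
  unfold nn
  omega

/-- (3c) -/
theorem Ctx3.three_c (h : Ctx3 A Q u r V x) : (SS A V x).card + 1 ≤ u := by
  by_contra hcon
  have h0 : u ≤ (SS A V x).card := by omega
  obtain ⟨I, hI, hIc⟩ := Finset.exists_subset_card_eq h0
  have h1 : ∀ i ∈ I, ∃ g ∈ A.S i, rs g V = 0 := fun i hi => (mem_SS.1 (hI hi)).2
  classical
  choose! g hg hg0 using h1
  have hIV : I ⊆ V := fun i hi => (Finset.mem_filter.1 (mem_SS.1 (hI hi)).1).1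
  have h2 := h.toCtx.T3 hIV hIc g hg
  have h3 : ∑ i ∈ I, ((rs (g i) (V \ I) : ℤ) + (x i - 1)) = 0 := by
    refine Finset.sum_eq_zero fun i hi => ?_
    have h4 : rs (g i) (V \ I) = 0 := by
      have := rs_mono (g i) (Finset.sdiff_subset (s := V) (t := I))
      rw [hg0 i hi] at this
      omega
    have h5 : x i = 1 := (Finset.mem_filter.1 (mem_SS.1 (hI hi)).1).2
    rw [h4, h5]
    norm_num
  have h4 := h.u_lt
  omega

lemma SS_union_A1 : SS A V x ∪ A1 A V x = AA V x := by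
  ext i
  rw [Finset.mem_union, mem_SS, mem_A1]
  constructor
  · rintro (h | h)
    · exact h.1
    · exact h.1
  · intro h
    by_cases h1 : ∃ g ∈ A.S i, rs g V = 0
    · exact Or.inl ⟨h, h1⟩
    · push Not at h1
      exact Or.inr ⟨h, fun g hg => Nat.one_le_iff_ne_zero.2 (h1 g hg)⟩

lemma disjoint_SS_A1 : Disjoint (SS A V x) (A1 A V x) := by
  rw [Finset.disjoint_left]
  intro i h1 h2
  obtain ⟨g, hg, hg0⟩ := (mem_SS.1 h1).2
  have := (mem_A1.1 h2).2 g hg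
  omega

lemma Ctx3.AA_union_BB (h : Ctx3 A Q u r V x) : AA V x ∪ BB V x = V := by
  ext i
  rw [Finset.mem_union, AA, BB, Finset.mem_filter, Finset.mem_filter]
  constructor
  · rintro (h | h)
    · exact h.1
    · exact h.1
  · intro hi
    have h1 := h.toCtx.x_pos (by have := h.hu2; omega) hi
    rcases eq_or_lt_of_le h1 with h2 | h2
    · exact Or.inl ⟨hi, h2.symm⟩
    · exact Or.inr ⟨hi, by omega⟩

lemma disjoint_AA_BB : Disjoint (AA V x) (BB V x) := by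
  rw [Finset.disjoint_left]
  intro i h1 h2
  have h3 := (Finset.mem_filter.1 h1).2
  have h4 := (Finset.mem_filter.1 h2).2
  omega

/-- a single row exists in each part of `A1`, it is `δ_h` with `h` a hub -/
lemma Ctx3.exists_single (h : Ctx3 A Q u r V x) {i : ι} (hi : i ∈ A1 A V x) :
    ∃ g ∈ A.S i, rs g V = 1 ∧ ∃ k ∈ BB V x, g k = 1 := by
  obtain ⟨hiA, hrow⟩ := mem_A1.1 hi
  obtain ⟨g, hg, hg1⟩ := h.three_a hiA
  have hg2 : rs g V = 1 := le_antisymm hg1 (hrow g hg)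
  obtain ⟨k, hk, hgk, -⟩ := exists_of_rs_one hg2
  exact ⟨g, hg, hg2, k, Finset.mem_filter.2 ⟨hk, h.three_b hi hg hg2 hk hgk⟩, hgk⟩

lemma Ctx3.sum_Ms (h : Ctx3 A Q u r V x) {i : ι} (hi : i ∈ A1 A V x) :
    ∑ k ∈ BB V x, Ms A V i k = 1 - qq A V i := by
  have hrow := (mem_A1.1 hi).2
  unfold Ms qq
  simp_rw [Finset.sum_filter]
  rw [Finset.sum_comm, ← A.sum_one i, ← Finset.sum_sub_distrib]
  refine Finset.sum_congr rfl fun g hg => ?_
  by_cases h2 : 2 ≤ rs g V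
  · rw [if_pos h2, sub_self]
    refine Finset.sum_eq_zero fun k _ => ?_
    rw [if_neg (by omega)]
  · have h1 : rs g V = 1 := by
      have := hrow g hg
      omega
    rw [if_neg h2, sub_zero]
    obtain ⟨k, hk, hgk, hoth⟩ := exists_of_rs_one h1
    have hkB : k ∈ BB V x := Finset.mem_filter.2 ⟨hk, h.three_b hi hg h1 hk hgk⟩
    rw [Finset.sum_eq_single_of_mem k hkB, if_pos ⟨h1, hgk⟩]
    intro j hj hjk
    have hjV : j ∈ V := (Finset.mem_filter.1 hj).1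
    rw [if_neg]
    rintro ⟨-, h3⟩
    rw [hoth j hjV hjk] at h3
    omega

lemma qq_nonneg (i : ι) : 0 ≤ qq A V i :=
  Finset.sum_nonneg fun g hg => (A.pos i g (Finset.mem_filter.1 hg).1).le

lemma qq_le_one (i : ι) : qq A V i ≤ 1 := by
  rw [← A.sum_one i]
  exact Finset.sum_le_sum_of_subset_of_nonneg (Finset.filter_subset _ _)
    fun g hg _ => (A.pos i g hg).le

lemma Ms_nonneg (i k : ι) : 0 ≤ Ms A V i k :=
  Finset.sum_nonneg fun g hg => (A.pos i g (Finset.mem_filter.1 hg).1).le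

lemma one_add_qq_le {i : ι} (hi : i ∈ A1 A V x) : 1 + qq A V i ≤ A.Mr i V := by
  have hrow := (mem_A1.1 hi).2
  rw [A.Mr_eq, ← A.sum_one i]
  unfold qq
  rw [Finset.sum_filter, ← Finset.sum_add_distrib]
  refine Finset.sum_le_sum fun g hg => ?_
  have hp := A.pos i g hg
  by_cases h2 : 2 ≤ rs g V
  · rw [if_pos h2]
    have h3 : (2 : ℝ) ≤ (rs g V : ℝ) := by exact_mod_cast h2
    have h4 : A.p i g * 2 ≤ A.p i g * (rs g V : ℝ) := mul_le_mul_of_nonneg_left h3 hp.le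
    linarith
  · rw [if_neg h2]
    have h3 : (1 : ℝ) ≤ (rs g V : ℝ) := by exact_mod_cast hrow g hg
    have h4 : A.p i g * 1 ≤ A.p i g * (rs g V : ℝ) := mul_le_mul_of_nonneg_left h3 hp.le
    linarith

lemma Ms_le_M (i k : ι) : Ms A V i k ≤ A.M i k := by
  unfold Ms M
  rw [Finset.sum_filter]
  refine Finset.sum_le_sum fun g hg => ?_
  have hp := A.pos i g hg
  by_cases h2 : rs g V = 1 ∧ g k = 1
  · rw [if_pos h2, h2.2]; simp
  · rw [if_neg h2]
    exact mul_nonneg hp.le (Nat.cast_nonneg _)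

lemma Ctx3.Mr_AA_le (h : Ctx3 A Q u r V x) {i : ι} (hi : i ∈ A1 A V x) :
    A.Mr i (AA V x) ≤ A.Mr i V - (1 - qq A V i) := by
  have h1 : A.Mr i V = A.Mr i (AA V x) + A.Mr i (BB V x) := by
    rw [← A.Mr_union i disjoint_AA_BB, h.AA_union_BB]
  have h2 : ∑ k ∈ BB V x, Ms A V i k ≤ A.Mr i (BB V x) :=
    Finset.sum_le_sum fun k _ => Ms_le_M i k
  rw [h.sum_Ms hi] at h2
  linarith

end FRow

end H23FO
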